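import Pool.Agent.Lib.MP_091276_al.KU.Gau

set_option autoImplicit false
set_option linter.unusedSectionVars false

/-! The eigenspace is the cokernel of the twisted operator. -/

namespace Pool.Agent.Lib.KU

open Polynomial Finset TensorProduct

namespace Ctx

variable {F E L : Type*} [Field F] [Fintype F] [Field E] [Fintype E] [Algebra F E]
  [CommRing L] [Algebra F L] (c : Ctx F E L)

/-- `O + C_P L`. -/
noncomputable def W : Submodule F L := c.O.toSubmodule ⊔ LinearMap.range (carl c.θ c.P)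

/-- `T + τ - z`. -/
noncomputable def D (x : E ⊗[F] L) : E ⊗[F] L :=
  c.jB (ev (X - C (c.mk' X))) * x + ta F E L x

theorem D_add (x y : E ⊗[F] L) : c.D (x + y) = c.D x + c.D y := by
  simp only [D, map_add]; ring

theorem D_zero : c.D 0 = 0 := by simp [D]

theorem D_C (a : E) (x : E ⊗[F] L) :
    c.D (c.jB (HahnSeries.C a) * x) = c.jB (HahnSeries.C a) * c.D x := by
  simp only [D, map_mul, ta_jB, tB_C]; ring

theorem s_D (b : Eˣ) (x : E ⊗[F] L) : c.s b (c.D x) = c.D (c.s b x) := by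
  simp only [D, map_add, map_mul, s_jB, s_ta]

theorem D_tmul (a : E) (y : L) :
    c.D (a ⊗ₜ y) = a ⊗ₜ carl c.θ (X : F[X]) y - (c.mk' X * a) ⊗ₜ y := by
  simp only [D, ev, eval₂_sub, eval₂_X, eval₂_C, map_sub, jB_T, jB_C, ta_tmul, sub_mul,
    Algebra.TensorProduct.tmul_mul_tmul, one_mul, carl_X, tmul_add]
  abel

/-- The map to the class module modulo `P`. -/
noncomputable def μ : E ⊗[F] L →ₗ[F] L ⧸ c.W :=
  TensorProduct.lift (((aeval (LinearMap.mulLeft F c.θ +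
    (FiniteField.frobeniusAlgHom F L).toLinearMap)).toLinearMap ∘ₗ c.rep).compr₂ c.W.mkQ)

theorem μ_tmul (a : E) (y : L) : c.μ (a ⊗ₜ y) = c.W.mkQ (carl c.θ (c.rep a) y) := rfl

theorem carl_P_mem (y : L) : carl c.θ c.P y ∈ c.W := Submodule.mem_sup_right ⟨y, rfl⟩

theorem μ_mk (a : F[X]) (y : L) : c.μ (c.mk' a ⊗ₜ y) = c.W.mkQ (carl c.θ a y) := by
  obtain ⟨u, hu⟩ := c.dvd_sub a
  rw [μ_tmul, eq_comm, Submodule.mkQ_apply, Submodule.mkQ_apply, Submodule.Quotient.eq,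
    ← carl_sub, hu, carl_mul]
  exact c.carl_P_mem _

theorem μ_one (y : L) : c.μ (1 ⊗ₜ y) = c.W.mkQ y := by
  have := c.μ_mk 1 y
  rwa [map_one, carl_one] at this

theorem μ_D (x : E ⊗[F] L) : c.μ (c.D x) = 0 := by
  induction x using TensorProduct.induction_on with
  | zero => simp [D_zero]
  | add x y hx hy => rw [D_add, map_add, hx, hy, add_zero]
  | tmul a y =>
    rw [D_tmul, map_sub, μ_tmul, ← carl_mul, ← μ_mk, map_mul, c.mk_rep, mul_comm, sub_self]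

theorem μ_OR : ∀ x ∈ c.OR, c.μ x = 0 :=
  c.OR_ind (map_zero _) (fun a o ho => by
    rw [μ_tmul]
    exact (Submodule.Quotient.mk_eq_zero _).2
      (Submodule.mem_sup_left (carl_mem c.O c.θ_mem ho _)))
    fun x y hx hy => by rw [map_add, hx, hy, add_zero]

theorem exists_D (a : F[X]) : ∀ y : L, ∃ w, c.mk' a ⊗ₜ y = 1 ⊗ₜ carl c.θ a y + c.D w := by
  refine poly_ind (p := fun a => ∀ y : L, ∃ w, c.mk' a ⊗ₜ y = 1 ⊗ₜ carl c.θ a y + c.D w)
    ?_ ?_ ?_ a
  · intro a y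
    refine ⟨0, ?_⟩
    rw [D_zero, add_zero, carl_C, ← Algebra.smul_def, ← TensorProduct.smul_tmul,
      ← Algebra.algebraMap_eq_smul_one]
    exact congrArg (· ⊗ₜ[F] y) (c.mk'.commutes a)
  · intro a b ha hb y
    obtain ⟨w, hw⟩ := ha y
    obtain ⟨v, hv⟩ := hb y
    exact ⟨w + v, by rw [map_add, add_tmul, hw, hv, D_add, carl_add, tmul_add]; abel⟩
  · intro a ha y
    obtain ⟨w, hw⟩ := ha (carl c.θ (X : F[X]) y)
    have h1 := c.D_C (-1) (c.mk' a ⊗ₜ y)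
    refine ⟨w + c.jB (HahnSeries.C (-1)) * c.mk' a ⊗ₜ y, ?_⟩
    rw [D_add, h1, D_tmul, hw, mul_comm X a, carl_mul, map_mul, mul_comm (c.mk' a)]
    simp only [map_neg, map_one]
    ring

theorem exists_rep (x : E ⊗[F] L) : ∃ y w, x = 1 ⊗ₜ y + c.D w := by
  induction x using TensorProduct.induction_on with
  | zero => exact ⟨0, 0, by simp [D_zero]⟩
  | add x y hx hy =>
    obtain ⟨a, w, rfl⟩ := hx
    obtain ⟨b, v, rfl⟩ := hy
    exact ⟨a + b, w + v, by rw [D_add, tmul_add]; abel⟩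
  | tmul a y =>
    obtain ⟨w, hw⟩ := c.exists_D (c.rep a) y
    rw [c.mk_rep] at hw
    exact ⟨_, w, hw⟩

theorem μ_eq_zero {x : E ⊗[F] L} (h : c.μ x = 0) : ∃ o ∈ c.OR, ∃ w, x = o + c.D w := by
  obtain ⟨y, w, rfl⟩ := c.exists_rep x
  rw [map_add, μ_D, add_zero, μ_one] at h
  obtain ⟨o, ho, _, ⟨v, rfl⟩, rfl⟩ := Submodule.mem_sup.1 ((Submodule.Quotient.mk_eq_zero _).1 h)
  obtain ⟨u, hu⟩ := c.exists_D c.P v
  rw [(c.mk_zero _).2 dvd_rfl, zero_tmul, eq_comm, add_eq_zero_iff_eq_neg] at hu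
  refine ⟨1 ⊗ₜ o, c.tmul_mem 1 ho, w + c.jB (HahnSeries.C (-1)) * u, ?_⟩
  rw [D_add, D_C, tmul_add, hu]
  simp only [map_neg, map_one]
  ring

/-- The projector to the eigenspace, up to sign. -/
noncomputable def pr (m : ℕ) (x : E ⊗[F] L) : E ⊗[F] L :=
  open Classical in ∑ b : Eˣ, c.jB (HahnSeries.C ((b : E) ^ m)) * c.s b x

theorem pr_add (m : ℕ) (x y : E ⊗[F] L) : c.pr m (x + y) = c.pr m x + c.pr m y := by
  simp only [pr, map_add, mul_add, sum_add_distrib]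

theorem pr_D (m : ℕ) (x : E ⊗[F] L) : c.pr m (c.D x) = c.D (c.pr m x) := by
  classical
  let f : E ⊗[F] L →+ E ⊗[F] L := ⟨⟨c.D, c.D_zero⟩, c.D_add⟩
  change _ = f _
  rw [pr, pr, map_sum]
  exact sum_congr rfl fun b _ => by rw [s_D, ← D_C]; rfl

theorem pr_mem (m : ℕ) {x : E ⊗[F] L} (hx : x ∈ c.OR) : c.pr m x ∈ c.OR :=
  sum_mem fun b _ => mul_mem (by rw [jB_C]; exact c.tmul_mem _ (one_mem _)) (c.s_mem b x hx)

theorem sum_const_units {V : Type*} [AddCommGroup V] [Module F V] [DecidableEq E] (v : V) :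
    ∑ _b : Eˣ, v = -v := by
  have h : ((Fintype.card E : ℕ) : F) = 0 := (algebraMap F E).injective (by
    rw [map_natCast, FiniteField.cast_card_eq_zero, map_zero])
  rw [sum_const, card_univ, Fintype.card_units, ← Nat.cast_smul_eq_nsmul F,
    Nat.cast_sub Fintype.card_pos, h]
  simp

section

variable [Nontrivial L] {d m : ℕ} {n : ℕ → ℕ} (hd : Fintype.card E = Fintype.card F ^ d)
  (hm : ∀ b : E, b ≠ 0 → b ^ m * b ^ (∑ i ∈ range d, Fintype.card F ^ i * n i) = 1)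

include hm in
theorem eig_g (b : Eˣ) (y : LaurentSeries E) :
    c.jB (HahnSeries.C ((b : E) ^ m)) * c.s b (c.gg n d * c.jB y) = c.gg n d * c.jB y := by
  rw [map_mul, s_gg, s_jB, ← mul_assoc, ← mul_assoc, ← map_mul, ← map_mul, hm b b.ne_zero,
    map_one, map_one, one_mul]

include hd hm in
theorem pr_eq (x : E ⊗[F] L) : ∃ y, c.pr m x = c.gg n d * c.jB y := by
  classical
  obtain ⟨u, hu⟩ := (c.gg_unit hd n).dvd (a := c.pr m x)
  obtain ⟨y, rfl⟩ := c.inv_R u fun a => by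
    have h1 : c.jB (HahnSeries.C ((a : E) ^ m)) * c.s a (c.pr m x) = c.pr m x := by
      rw [pr, map_sum, mul_sum]
      refine Fintype.sum_equiv (Equiv.mulRight a) _ _ fun b => ?_
      rw [map_mul, s_jB, s_mul, Equiv.coe_mulRight, Units.val_mul, mul_pow, map_mul, map_mul]
      ring
    have h2 := c.eig_g hm a 1
    rw [map_one, mul_one] at h2
    rw [hu, map_mul, ← mul_assoc, h2] at h1
    exact (c.gg_unit hd n).mul_left_cancel h1
  exact ⟨y, hu⟩

theorem D_g (u : LaurentSeries E) : c.D (c.gg n d * c.jB u)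
    = c.gg n d * c.jB (Lam HahnSeries.C (TT E) (tB F E) (c.mk' X) (bet c.z n d) u) := by
  simp only [D, Lam, ev, map_add, map_mul, ta_gg, ta_jB, eval₂_sub, eval₂_X, eval₂_C]
  ring

include hd hm in
theorem ker_iff (hinj : ∀ i < d, ∀ j < d, c.z i = c.z j → i = j)
    (hn : ∀ i < d, n i ≤ Fintype.card F - 1) {i0 : ℕ} (hi0 : i0 < d)
    (hlt : n i0 < Fintype.card F - 1) (y : LaurentSeries E) :
    c.μ (c.gg n d * c.jB y) = 0 ↔
      InS HahnSeries.C (TT E) (tB F E) (c.mk' X) (bet c.z n d) y := by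
  classical
  constructor
  · intro h
    obtain ⟨o, ho, w, h1⟩ := c.μ_eq_zero h
    have h2 := congrArg (c.pr m) h1
    obtain ⟨f, hf⟩ := c.pr_eq hd hm o
    obtain ⟨u, hu⟩ := c.pr_eq hd hm w
    obtain ⟨f, rfl⟩ := c.gen_lemma hd hinj n hn hi0 hlt (hf ▸ c.pr_mem m ho)
    rw [pr_add, pr_D, hf, hu, D_g, pr, sum_congr rfl fun b _ => c.eig_g hm b y,
      sum_const_units (F := F), ← mul_add, ← map_add, ← mul_neg, ← map_neg] at h2
    have h3 := c.jB.injective ((c.gg_unit hd n).mul_left_cancel h2)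
    refine ⟨-f, HahnSeries.C (-1) * u, ?_⟩
    rw [Lam_smul _ tB_C, eval₂_neg]
    simp only [map_neg, map_one]
    linear_combination -h3
  · rintro ⟨f, u, rfl⟩
    rw [map_add, mul_add, map_add, ← D_g, μ_D, add_zero]
    exact c.μ_OR _ (mul_mem (c.gg_mem _ _) (c.jB_ev_mem f))

theorem μ_s (b : Eˣ) (x : L) : c.μ (c.jB (HahnSeries.C ((b : E) ^ m)) * c.s b (1 ⊗ₜ x))
    = c.W.mkQ (carl c.θ (c.rep b ^ m) (c.S b x)) := by
  rw [← μ_mk, map_pow c.mk', c.mk_rep, jB_C, s_tmul, Algebra.TensorProduct.tmul_mul_tmul, mul_one,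
    one_mul]

include hd hm in
theorem range_iff (x : L) : (∃ y, c.μ (c.gg n d * c.jB y) = c.W.mkQ x) ↔
    ∀ b : Eˣ, carl c.θ (c.rep b ^ m) (c.S b x) - x ∈ c.W := by
  classical
  constructor
  · rintro ⟨y, hy⟩ b
    obtain ⟨o, ho, w, h1⟩ := c.μ_eq_zero (x := 1 ⊗ₜ x - c.gg n d * c.jB y)
      (by rw [map_sub, hy, μ_one, sub_self])
    rw [← Submodule.Quotient.eq]
    change c.W.mkQ _ = c.W.mkQ _
    rw [← μ_s, sub_eq_iff_eq_add.1 h1, map_add, map_add, mul_add, mul_add, c.eig_g hm, s_D, ← D_C,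
      map_add, map_add, μ_D, hy, c.μ_OR, zero_add, zero_add]
    exact mul_mem (by rw [jB_C]; exact c.tmul_mem _ (one_mem _)) (c.s_mem b o ho)
  · intro h
    obtain ⟨y, hy⟩ := c.pr_eq hd hm (1 ⊗ₜ x)
    refine ⟨-y, ?_⟩
    rw [map_neg, mul_neg, map_neg, ← hy, pr, map_sum, neg_eq_iff_eq_neg,
      ← sum_const_units (F := F) (E := E)]
    refine sum_congr rfl fun b _ => ?_
    rw [μ_s]
    exact (Submodule.Quotient.eq _).2 (h b)

end

end Ctx

end Pool.Agent.Lib.KU
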