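import Mathlib

set_option autoImplicit false

/-! The polynomial core of the generator lemma for Gauss-Thakur sums. -/

namespace Pool.Agent.Lib.KU

open Polynomial Finset

variable {E : Type*} [Field E]

/-- `∏_{i<d} (z_i - T)^(n_i)`. -/
noncomputable def bet (z : ℕ → E) (n : ℕ → ℕ) (d : ℕ) : E[X] :=
  ∏ i ∈ range d, (C (z i) - X) ^ n i

theorem bet_succ (z : ℕ → E) (n : ℕ → ℕ) (d : ℕ) :
    bet z n (d + 1) = bet z n d * (C (z d) - X) ^ n d := by
  simp [bet, prod_range_succ]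

theorem z_add {q d : ℕ} {z : ℕ → E} (hz : ∀ i, z (i + 1) = z i ^ q) (hper : z d = z 0) (i : ℕ) :
    z (d + i) = z i := by
  induction i with
  | zero => simpa using hper
  | succ i ih => rw [← add_assoc, hz, ih, hz]

theorem z_mod {q d : ℕ} {z : ℕ → E} (hz : ∀ i, z (i + 1) = z i ^ q) (hper : z d = z 0) (i : ℕ) :
    z (i % d) = z i := by
  have h : ∀ m j, z (d * m + j) = z j := by
    intro m
    induction m with
    | zero => intro j; simp
    | succ m ih =>
      intro j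
      rw [show d * (m + 1) + j = d + (d * m + j) by ring, z_add hz hper, ih]
  conv_rhs => rw [← Nat.div_add_mod i d]
  rw [h]

theorem bet_split {d : ℕ} {z : ℕ → E} (hinj : ∀ i < d, ∀ j < d, z i = z j → i = j)
    (n : ℕ → ℕ) {j : ℕ} (hj : j < d) :
    ∃ b : E[X], b.eval (z j) ≠ 0 ∧ bet z n d = (C (z j) - X) ^ n j * b := by
  refine ⟨∏ i ∈ (range d).erase j, (C (z i) - X) ^ n i, ?_, ?_⟩
  · rw [eval_prod]
    refine prod_ne_zero_iff.2 fun i hi => ?_
    obtain ⟨h1, h2⟩ := mem_erase.1 hi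
    simp only [eval_pow, eval_sub, eval_C, eval_X]
    exact pow_ne_zero _ (sub_ne_zero.2 fun h => h1 (hinj i (mem_range.1 h2) j hj h))
  · rw [bet, mul_prod_erase _ (fun i => (C (z i) - X) ^ n i) (mem_range.2 hj)]

theorem pow_le_of_dvd {a : E} {m n : ℕ} {b : E[X]} (hb : b.eval a ≠ 0)
    (h : (C a - X) ^ m ∣ (C a - X) ^ n * b) : m ≤ n := by
  by_contra hlt
  push Not at hlt
  have h0 : (C a - X : E[X]) ≠ 0 := by
    intro h; exact X_sub_C_ne_zero a (by rw [← neg_sub, h, neg_zero])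
  have h1 : (C a - X) ^ (n + 1) ∣ (C a - X) ^ n * b := (pow_dvd_pow _ hlt).trans h
  rw [pow_succ, mul_dvd_mul_iff_left (pow_ne_zero _ h0)] at h1
  obtain ⟨c, rfl⟩ := h1
  simp at hb

theorem gen_poly {q d : ℕ} {z : ℕ → E} (hz : ∀ i, z (i + 1) = z i ^ q) (hper : z d = z 0)
    (hinj : ∀ i < d, ∀ j < d, z i = z j → i = j) (n : ℕ → ℕ) (hn : ∀ i < d, n i ≤ q - 1)
    {i0 : ℕ} (hi0 : i0 < d) (hlt : n i0 < q - 1) (Y : Set E[X])
    (hY : ∀ f ∈ Y, ∃ f1 ∈ Y,
      bet z (fun _ => 1) d ^ (q - 1) * f1 = bet z n d * expand E q f) :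
    ∀ f ∈ Y, bet z (fun _ => 1) d ∣ f := by
  have hd : 0 < d := by omega
  have key : ∀ j, ∀ f f1 : E[X], f.eval (z (j + 1)) ≠ 0 →
      bet z (fun _ => 1) d ^ (q - 1) * f1 = bet z n d * expand E q f →
      q - 1 ≤ n (j % d) ∧ f1.eval (z j) ≠ 0 := by
    intro j f f1 hf h
    have hj : j % d < d := Nat.mod_lt _ hd
    obtain ⟨b, hb, hb'⟩ := bet_split hinj n hj
    obtain ⟨c, _, hc'⟩ := bet_split hinj (fun _ => 1) hj
    rw [z_mod hz hper] at hb hb' hc'
    have he : (b * expand E q f).eval (z j) ≠ 0 := by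
      rw [eval_mul, expand_eval, ← hz]
      exact mul_ne_zero hb hf
    rw [hb', hc', mul_assoc, pow_one, mul_pow] at h
    refine ⟨pow_le_of_dvd he ⟨c ^ (q - 1) * f1, by rw [← h]; ring⟩, fun h1 => ?_⟩
    obtain ⟨f2, rfl⟩ := dvd_iff_isRoot.2 h1
    have := pow_le_of_dvd (m := q - 1 + 1) he
      ⟨-(c ^ (q - 1) * f2), by rw [← h]; ring⟩
    have := hn _ hj
    omega
  have hall : ∀ m, ∀ f ∈ Y, f.eval (z (i0 + m + 1)) = 0 := by
    intro m
    induction m with
    | zero =>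
      intro f hf
      by_contra h
      obtain ⟨f1, _, h1⟩ := hY f hf
      have := (key i0 f f1 h h1).1
      rw [Nat.mod_eq_of_lt hi0] at this
      omega
    | succ m ih =>
      intro f hf
      by_contra h
      obtain ⟨f1, hf1, h1⟩ := hY f hf
      exact (key (i0 + m + 1) f f1 h h1).2 (ih f1 hf1)
  intro f hf
  refine prod_dvd_of_coprime (fun i hi j hj hij => ?_) fun i hi => ?_
  · simp only [Function.onFun, pow_one]
    have h := isCoprime_X_sub_C_of_isUnit_sub (a := z i) (b := z j)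
      (IsUnit.mk0 _ (sub_ne_zero.2 fun h =>
        hij (hinj i (mem_range.1 hi) j (mem_range.1 hj) h)))
    rw [← neg_sub X, ← neg_sub X (C (z j))]
    exact h.neg_neg
  · rw [pow_one, ← neg_sub X, neg_dvd, dvd_iff_isRoot]
    have := hall (d + i - i0 - 1) f hf
    rwa [show i0 + (d + i - i0 - 1) + 1 = d + i by omega, z_add hz hper] at this

end Pool.Agent.Lib.KU
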