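import Pool.Agent.Lib.MP_091276_al.KU.Tw

set_option autoImplicit false

/-! The cokernel of `Lam` on `E((1/T)) / E[T]` is the cokernel of an explicit matrix. -/

namespace Pool.Agent.Lib.KU

open Polynomial Finset HahnSeries

variable {E : Type*} [Field E]

/-- The variable `T`, the inverse of the uniformiser. -/
noncomputable def TT (E : Type*) [Field E] : LaurentSeries E := single (-1) 1

/-- Evaluation of polynomials at `T`. -/
noncomputable abbrev ev (f : E[X]) : LaurentSeries E := eval₂ HahnSeries.C (TT E) f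

/-- All coefficients below `m` vanish. -/
def Ord (m : ℤ) (y : LaurentSeries E) : Prop := ∀ i < m, y.coeff i = 0

theorem Ord.mono {m m' : ℤ} {y : LaurentSeries E} (h : Ord m y) (hm : m' ≤ m) : Ord m' y :=
  fun i hi => h i (by omega)

theorem Ord.add {m : ℤ} {x y : LaurentSeries E} (hx : Ord m x) (hy : Ord m y) : Ord m (x + y) :=
  fun i hi => by simp [hx i hi, hy i hi]

theorem Ord.sub {m : ℤ} {x y : LaurentSeries E} (hx : Ord m x) (hy : Ord m y) : Ord m (x - y) :=
  fun i hi => by simp [hx i hi, hy i hi]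

theorem ord_iff {m : ℤ} {y : LaurentSeries E} : Ord m y ↔ (m : WithTop ℤ) ≤ y.orderTop := by
  rw [le_orderTop_iff_forall]
  simp only [Ord, WithTop.coe_lt_coe]

theorem Ord.mul {a b : ℤ} {x y : LaurentSeries E} (hx : Ord a x) (hy : Ord b y) :
    Ord (a + b) (x * y) := by
  rw [ord_iff] at *
  exact le_trans (by push_cast; exact add_le_add hx hy) orderTop_add_le_mul

theorem ord_single (m : ℤ) (a : E) : Ord m (single m a : LaurentSeries E) :=
  fun _ hi => coeff_single_of_ne hi.ne

theorem ev_monomial (n : ℕ) (a : E) : ev (monomial n a) = single (-(n : ℤ)) a := by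
  rw [ev, eval₂_monomial, TT, single_pow, HahnSeries.C_apply, single_mul_single]
  simp

theorem coeff_ev (f : E[X]) (m : ℤ) :
    (ev f).coeff m = if m ≤ 0 then f.coeff (-m).toNat else 0 := by
  induction f using Polynomial.induction_on' with
  | add f g hf hg =>
    rw [ev, eval₂_add, HahnSeries.coeff_add, hf, hg]
    split_ifs <;> simp
  | monomial n a =>
    rw [ev_monomial, coeff_single, coeff_monomial]
    split_ifs <;> first | rfl | omega

theorem ord_ev {f : E[X]} {s : ℕ} (h : f.natDegree ≤ s) : Ord (-(s : ℤ)) (ev f) := by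
  intro i hi
  rw [coeff_ev, if_pos (by omega)]
  exact coeff_eq_zero_of_natDegree_lt (by omega)

theorem coeff_ev_mul (f : E[X]) (i j : ℕ) :
    (ev f * single (j : ℤ) 1).coeff i = (X ^ i * f).coeff j := by
  rw [coeff_mul_single, mul_one, coeff_ev, coeff_X_pow_mul']
  split_ifs with h1 h2 h2
  · congr 1; omega
  · omega
  · omega
  · rfl

theorem exists_poly (y : LaurentSeries E) : ∃ f : E[X], Ord 1 (y - ev f) := by
  refine ⟨∑ i ∈ range ((-y.order).toNat + 1), monomial i (y.coeff (-(i : ℤ))), fun i hi => ?_⟩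
  rw [HahnSeries.coeff_sub, coeff_ev, if_pos (by omega), finsetSum_coeff]
  simp only [coeff_monomial]
  rw [sum_ite_eq']
  split_ifs with h
  · rw [sub_eq_zero]; congr 1; omega
  · rw [sub_zero]
    rw [mem_range] at h
    exact coeff_eq_zero_of_lt_order (by omega)

theorem C_ne_TT (a : E) : (HahnSeries.C a : LaurentSeries E) ≠ TT E := by
  intro h
  have := congrArg (fun y : LaurentSeries E => y.coeff (-1)) h
  simp [TT, HahnSeries.C_apply] at this

section

variable {τ : LaurentSeries E →+* LaurentSeries E} {q : ℕ} {a : E} {β : E[X]} {r : ℕ}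

theorem ord_Lam (hq : 1 ≤ q) (hτ : ∀ m y, Ord m y → Ord (q * m) (τ y))
    (hβ : β.natDegree ≤ (q - 1) * (r + 2)) {m : ℤ} (hm : r + 2 ≤ m) {u : LaurentSeries E}
    (hu : Ord m u) : Ord m (Lam HahnSeries.C (TT E) τ a β u - TT E * u) := by
  have h1 : Ord m (HahnSeries.C a * u) := by
    have := (ord_single 0 a).mul hu
    rwa [zero_add] at this
  have h2 : Ord m (ev β * τ u) := by
    refine ((ord_ev hβ).mul (hτ m u hu)).mono ?_
    obtain ⟨q, rfl⟩ : ∃ q', q = q' + 1 := ⟨q - 1, by omega⟩
    simp only [Nat.add_sub_cancel]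
    push_cast
    nlinarith [Int.natCast_nonneg q]
  have := h2.sub h1
  convert this using 1
  simp only [Lam, ev]; ring

theorem ord_Lam' (hq : 1 ≤ q) (hτ : ∀ m y, Ord m y → Ord (q * m) (τ y))
    (hβ : β.natDegree ≤ (q - 1) * (r + 2)) {m : ℤ} (hm : r + 1 ≤ m) {u : LaurentSeries E}
    (hu : Ord (m + 1) u) : Ord m (Lam HahnSeries.C (TT E) τ a β u) := by
  have h1 := (ord_Lam (a := a) hq hτ hβ (by omega) hu).mono (show m ≤ m + 1 by omega)
  have h2 : Ord m (TT E * u) := ((ord_single (-1) 1).mul hu).mono (by omega)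
  simpa using h1.add h2

theorem exists_Lam (hq : 1 ≤ q) (hτ : ∀ m y, Ord m y → Ord (q * m) (τ y))
    (hβ : β.natDegree ≤ (q - 1) * (r + 2)) {w : LaurentSeries E} (hw : Ord (r + 1) w) :
    ∃ u, Lam HahnSeries.C (TT E) τ a β u = w := by
  set L := Lam HahnSeries.C (TT E) τ a β with hL
  let W : ℕ → LaurentSeries E := fun n => Nat.rec w (fun _ x => x - L (single 1 1 * x)) n
  have hW : ∀ n, W (n + 1) = W n - L (single 1 1 * W n) := fun n => rfl
  have hX : ∀ x : LaurentSeries E, TT E * (single 1 1 * x) = x := by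
    intro x
    rw [← mul_assoc, TT, single_mul_single]
    simp
  have hO : ∀ n : ℕ, Ord (r + 1 + n) (W n) := by
    intro n
    induction n with
    | zero => exact hw.mono (by simp)
    | succ n ih =>
      have h1 := ord_Lam (a := a) hq hτ hβ (by omega) ((ord_single 1 1).mul ih)
      rw [hX] at h1
      intro i hi
      have := h1 i (by push_cast at hi; omega)
      rw [hW, ← neg_sub, HahnSeries.coeff_neg, this, neg_zero]
  have hO' : ∀ n : ℕ, Ord (r + 2 + n) (single 1 1 * W n) := fun n =>
    ((ord_single 1 1).mul (hO n)).mono (by omega)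
  let U : ℕ → LaurentSeries E := fun N => ∑ n ∈ range N, single 1 1 * W n
  have hU : ∀ N, L (U N) = w - W N := by
    intro N
    induction N with
    | zero => simp [U, hL, Lam, W]
    | succ N ih =>
      have : U (N + 1) = U N + single 1 1 * W N := sum_range_succ _ _
      rw [this, hL, Lam_add, ← hL, ih, hW]; ring
  have hst : ∀ (i : ℤ) (N M : ℕ), N ≤ M → i < r + 2 + N → (U M).coeff i = (U N).coeff i := by
    intro i N M hNM hi
    induction M, hNM using Nat.le_induction with
    | base => rfl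
    | succ M hM ih =>
      have : U (M + 1) = U M + single 1 1 * W M := sum_range_succ _ _
      rw [this, HahnSeries.coeff_add, ih, hO' M i (by omega), add_zero]
  let u : LaurentSeries E := ofSuppBddBelow (fun i => (U i.toNat).coeff i)
    ⟨0, fun i hi => by
      by_contra h
      apply hi
      have : i.toNat = 0 := by omega
      simp [this, U]⟩
  have hu : ∀ N : ℕ, Ord (r + 1 + N + 1) (u - U N) := by
    intro N i hi
    rw [HahnSeries.coeff_sub, sub_eq_zero]
    change (U i.toNat).coeff i = _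
    rw [← hst i i.toNat (max i.toNat N) (le_max_left _ _) (by omega),
      hst i N (max i.toNat N) (le_max_right _ _) (by omega)]
  refine ⟨u, ?_⟩
  ext i
  have h1 := ord_Lam' (a := a) hq hτ hβ (by omega) (hu i.toNat) i (by omega)
  rw [Lam_sub, ← hL, hU] at h1
  simp only [HahnSeries.coeff_sub] at h1
  rw [hO i.toNat i (by omega)] at h1
  linear_combination h1

end

/-- The matrix of `Lam` from `span(T^-1, …, T^-(r+1))` to `span(T^-1, …, T^-r)`. -/
noncomputable def mat {R : Type*} [CommRing R] (q : ℕ) (a : R) (β : R[X]) (i j : ℕ) : R :=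
  (X ^ (i + 1) * (X - Polynomial.C a)).coeff (j + 1) + (X ^ (i + 1) * β).coeff (q * (j + 1))

theorem inS_iff {τ : LaurentSeries E →+* LaurentSeries E} {q : ℕ} {a : E} {β : E[X]} {r : ℕ}
    (hq : 1 ≤ q) (hs : ∀ (m : ℤ) (e : E), τ (single m e) = single (q * m) e)
    (hτ : ∀ m y, Ord m y → Ord (q * m) (τ y))
    (hβ : β.natDegree ≤ (q - 1) * (r + 2)) (y : LaurentSeries E) :
    InS HahnSeries.C (TT E) τ a β y ↔ ∃ v : Fin (r + 1) → E, ∀ i : Fin r,
      y.coeff ((i + 1 : ℕ) : ℤ) = ∑ j : Fin (r + 1), mat q a β i j * v j := by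
  have hc : ∀ e : E, τ (HahnSeries.C e) = HahnSeries.C e := fun e => by
    rw [HahnSeries.C_apply, hs, mul_zero]
  have hT : τ (TT E) = TT E ^ q := by
    rw [TT, hs, single_pow]; simp
  set L := Lam HahnSeries.C (TT E) τ a β with hL
  let S : (Fin (r + 1) → E) → LaurentSeries E := fun v =>
    ∑ j : Fin (r + 1), HahnSeries.C (v j) * single ((j + 1 : ℕ) : ℤ) 1
  have hS : ∀ v (i : ℕ), (L (S v)).coeff ((i + 1 : ℕ) : ℤ)
      = ∑ j : Fin (r + 1), mat q a β i j * v j := by
    intro v i
    have h0 : L (S v) = ∑ j : Fin (r + 1), HahnSeries.C (v j) *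
        (ev (X - Polynomial.C a) * single ((j + 1 : ℕ) : ℤ) 1
          + ev β * single ((q * (j + 1) : ℕ) : ℤ) 1) := by
      simp only [hL, Lam, S, map_sum, map_mul, hc, hs, mul_sum, ← sum_add_distrib, ev, eval₂_sub,
        eval₂_X, eval₂_C]
      refine sum_congr rfl fun j _ => ?_
      push_cast
      ring
    rw [h0, HahnSeries.coeff_sum]
    refine sum_congr rfl fun j _ => ?_
    rw [HahnSeries.C_apply, coeff_single_mul, sub_zero, HahnSeries.coeff_add, coeff_ev_mul,
      coeff_ev_mul, mat, mul_comm]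
  have hSc : ∀ v (j : Fin (r + 1)), (S v).coeff ((j + 1 : ℕ) : ℤ) = v j := by
    intro v j
    simp only [S, HahnSeries.coeff_sum, HahnSeries.C_apply, single_mul_single, zero_add, mul_one,
      coeff_single]
    rw [sum_eq_single j]
    · simp
    · intro b _ hb
      rw [if_neg]
      intro h
      exact hb (Fin.ext (by omega))
    · simp
  have hS1 : ∀ v, Ord 1 (S v) := by
    intro v i hi
    simp only [S, HahnSeries.coeff_sum, HahnSeries.C_apply, single_mul_single, zero_add, mul_one]
    exact sum_eq_zero fun j _ => coeff_single_of_ne (by omega)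
  constructor
  · rintro ⟨f, u, rfl⟩
    obtain ⟨g, hg⟩ := exists_poly u
    let v : Fin (r + 1) → E := fun j => (u - ev g).coeff ((j + 1 : ℕ) : ℤ)
    have ht : Ord (r + 1 + 1) (u - ev g - S v) := by
      intro i hi
      by_cases h : i < 1
      · exact (hg.sub (hS1 v)) i h
      · obtain ⟨j, rfl⟩ : ∃ j : Fin (r + 1), i = ((j + 1 : ℕ) : ℤ) :=
          ⟨⟨(i - 1).toNat, by omega⟩, by simp only; omega⟩
        rw [HahnSeries.coeff_sub, hSc, sub_self]
    refine ⟨v, fun i => ?_⟩
    have h1 := ord_Lam' (a := a) hq hτ hβ le_rfl ht ((i + 1 : ℕ) : ℤ) (by omega)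
    have h2 : L (ev g) = ev ((X - Polynomial.C a) * g + β * expand E q g) := by
      simp only [hL, Lam, ev, tau_eval hc hT, eval₂_add, eval₂_mul, eval₂_sub, eval₂_X, eval₂_C]
    rw [Lam_sub, Lam_sub, ← hL, h2, HahnSeries.coeff_sub, HahnSeries.coeff_sub, hS, coeff_ev,
      if_neg (by omega)] at h1
    rw [HahnSeries.coeff_add, coeff_ev, if_neg (by omega), ← hL]
    linear_combination h1
  · rintro ⟨v, hv⟩
    obtain ⟨g, hg⟩ := exists_poly (y - L (S v))
    have ht : Ord (r + 1) (y - L (S v) - ev g) := by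
      intro i hi
      by_cases h : i < 1
      · exact hg i h
      · obtain ⟨j, rfl⟩ : ∃ j : Fin r, i = ((j + 1 : ℕ) : ℤ) :=
          ⟨⟨(i - 1).toNat, by omega⟩, by simp only; omega⟩
        rw [HahnSeries.coeff_sub, HahnSeries.coeff_sub, hS, hv, coeff_ev, if_neg (by omega)]
        simp
    obtain ⟨u, hu⟩ := exists_Lam (a := a) hq hτ hβ ht
    refine ⟨g, S v + u, ?_⟩
    rw [Lam_add, hu, ← hL]
    simp only [ev]; ring

end Pool.Agent.Lib.KU
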