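import Pool.Agent.Lib.MP_091276_al.KU.Lau

set_option autoImplicit false

/-! `E((1/T))` is the base change of `F((1/T))` along a finite extension. -/

namespace Pool.Agent.Lib.KU

open Finset HahnSeries Module

variable {F E : Type*} [Field F] [Field E] [Algebra F E]

/-- Coefficientwise inclusion. -/
noncomputable def io (F E : Type*) [Field F] [Field E] [Algebra F E] :
    LaurentSeries F →+* LaurentSeries E where
  toFun y := y.map (algebraMap F E)
  map_one' := by ext m; simp [HahnSeries.coeff_one, apply_ite]
  map_mul' x y := HahnSeries.map_mul (algebraMap F E : F →ₙ+* E)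
  map_zero' := by ext m; simp
  map_add' x y := by ext m; simp

theorem coeff_io (y : LaurentSeries F) (m : ℤ) : (io F E y).coeff m = algebraMap F E (y.coeff m) :=
  rfl

theorem io_single (m : ℤ) (c : F) : io F E (single m c) = single m (algebraMap F E c) := by
  ext i
  simp only [coeff_io, coeff_single]
  split_ifs <;> simp

theorem coeff_C_mul' (a : E) (y : LaurentSeries E) (m : ℤ) :
    (HahnSeries.C a * y).coeff m = a * y.coeff m := by
  rw [HahnSeries.C_apply, coeff_single_mul, sub_zero]

theorem sum_io {ι : Type*} [Fintype ι] (e : Basis ι F E) (y : LaurentSeries E) :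
    ∑ i, HahnSeries.C (e i) * io F E (y.map (e.coord i)) = y := by
  ext m
  rw [HahnSeries.coeff_sum]
  simp only [coeff_C_mul', coeff_io, map_coeff, Basis.coord_apply]
  conv_rhs => rw [← e.sum_repr (y.coeff m)]
  exact sum_congr rfl fun i _ => by rw [Algebra.smul_def, mul_comm]

theorem lau_ind [FiniteDimensional F E] {p : LaurentSeries E → Prop} (m : ℤ) (h0 : p 0)
    (h1 : ∀ a y, Ord m y → p (HahnSeries.C a * io F E y)) (h2 : ∀ x y, p x → p y → p (x + y))
    (y : LaurentSeries E) (hy : Ord m y) : p y := by
  rw [← sum_io (finBasis F E) y]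
  refine sum_induction _ p h2 h0 fun i _ => h1 _ _ fun j hj => ?_
  simp [hy j hj]

theorem lau_ind' [FiniteDimensional F E] {p : LaurentSeries E → Prop} (h0 : p 0)
    (h1 : ∀ a y, p (HahnSeries.C a * io F E y)) (h2 : ∀ x y, p x → p y → p (x + y))
    (y : LaurentSeries E) : p y :=
  lau_ind y.order h0 (fun a y _ => h1 a y) h2 y fun _ hi => coeff_eq_zero_of_lt_order hi

theorem exists_lift [FiniteDimensional F E] {S : Type*} [CommRing S] (f : E →+* S)
    (g : LaurentSeries F →+* S) (h : ∀ c, f (algebraMap F E c) = g (HahnSeries.C c)) :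
    ∃ Λ : LaurentSeries E →+* S, ∀ a y, Λ (HahnSeries.C a * io F E y) = f a * g y := by
  let e := finBasis F E
  let χ : LaurentSeries E → S := fun y => ∑ i, f (e i) * g (y.map (e.coord i))
  have hadd : ∀ x y, χ (x + y) = χ x + χ y := by
    intro x y
    simp only [χ, ← sum_add_distrib, ← mul_add, ← map_add]
    refine sum_congr rfl fun i _ => ?_
    congr 2
    ext m; simp
  have hzero : χ 0 = 0 := by
    have := hadd 0 0
    rw [add_zero] at this
    exact left_eq_add.1 this
  have hgen : ∀ a y, χ (HahnSeries.C a * io F E y) = f a * g y := by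
    intro a y
    have h1 : ∀ i, (HahnSeries.C a * io F E y).map (e.coord i)
        = HahnSeries.C (e.repr a i) * y := by
      intro i
      ext m
      rw [map_coeff, coeff_C_mul', coeff_C_mul', coeff_io, mul_comm a, ← Algebra.smul_def,
        map_smul, Basis.coord_apply, smul_eq_mul, mul_comm]
    simp only [χ, h1, map_mul, ← h, ← mul_assoc, ← sum_mul]
    congr 1
    conv_rhs => rw [← e.sum_repr a, map_sum]
    exact sum_congr rfl fun i _ => by rw [Algebra.smul_def, map_mul, mul_comm]
  have hmul : ∀ x y, χ (x * y) = χ x * χ y := by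
    intro x y
    refine lau_ind' (F := F) (p := fun x => χ (x * y) = χ x * χ y) (by simp [hzero]) ?_ ?_ x
    · intro a x
      refine lau_ind' (F := F) (p := fun y => χ (HahnSeries.C a * io F E x * y)
        = χ (HahnSeries.C a * io F E x) * χ y) (by simp [hzero]) ?_ ?_ y
      · intro b y
        rw [mul_mul_mul_comm, ← map_mul, ← map_mul (io F E), hgen, hgen, hgen, map_mul, map_mul,
          mul_mul_mul_comm]
      · intro y y' hy hy'
        rw [mul_add, hadd, hadd, hy, hy', mul_add]
    · intro x x' hx hx'
      rw [add_mul, hadd, hadd, hx, hx', add_mul]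
  have hone : χ 1 = 1 := by simpa using hgen 1 1
  exact ⟨⟨⟨⟨χ, hone⟩, hmul⟩, hzero, hadd⟩, hgen⟩

theorem Ord.pow {m : ℤ} {y : LaurentSeries E} (h : Ord m y) (n : ℕ) : Ord (n * m) (y ^ n) := by
  induction n with
  | zero => simpa using ord_single (E := E) 0 1
  | succ n ih =>
    rw [pow_succ]
    exact (ih.mul h).mono (by push_cast; ring_nf; rfl)

theorem exists_tau [FiniteDimensional F E] (q : ℕ) (fr : LaurentSeries F →+* LaurentSeries F)
    (hfr : ∀ y, fr y = y ^ q) (hc : ∀ c : F, c ^ q = c) :
    ∃ τ : LaurentSeries E →+* LaurentSeries E,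
      (∀ a y, τ (HahnSeries.C a * io F E y) = HahnSeries.C a * io F E (y ^ q)) ∧
      (∀ (m : ℤ) (e : E), τ (single m e) = single (q * m) e) ∧
      ∀ m y, Ord m y → Ord (q * m) (τ y) := by
  obtain ⟨τ, hτ⟩ := exists_lift (E := E) HahnSeries.C ((io F E).comp fr) fun c => by
    rw [RingHom.comp_apply, hfr, ← map_pow, hc, HahnSeries.C_apply, HahnSeries.C_apply, io_single]
  simp only [RingHom.comp_apply, hfr] at hτ
  refine ⟨τ, hτ, fun m e => ?_, fun m y hy => ?_⟩
  · have := hτ e (single m 1)
    rw [single_pow, io_single, io_single, HahnSeries.C_apply, single_mul_single,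
      single_mul_single] at this
    simpa using this
  · refine lau_ind (F := F) (p := fun y => Ord (q * m) (τ y)) m ?_ ?_ ?_ y hy
    · intro i _; simp
    · intro a y hy i hi
      rw [hτ, coeff_C_mul', coeff_io, hy.pow q i hi, map_zero, mul_zero]
    · intro x y hx hy
      rw [map_add]; exact hx.add hy

end Pool.Agent.Lib.KU
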