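import Pool.Agent.Lib.MP_091276_al.KU.Base

set_option autoImplicit false

/-! The Carlitz module and its cyclotomic polynomial. -/

namespace Pool.Agent.Lib.KU

open Polynomial Finset

section Defs

variable {F : Type*} [Field F] [Fintype F] {L : Type*} [CommRing L] [Algebra F L]

/-- The Carlitz action `C_a` on an `F`-algebra in which `T` is `θ`: `C_T x = θ x + x^q`. -/
noncomputable def carl (θ : L) (a : F[X]) : Module.End F L :=
  aeval (LinearMap.mulLeft F θ + (FiniteField.frobeniusAlgHom F L).toLinearMap) a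

/-- The polynomial `C_a(Y)` in `A[Y]`. -/
noncomputable def cp (a : F[X]) : F[X][X] := carl (C X : F[X][X]) a X

theorem carl_X (θ x : L) : carl θ (X : F[X]) x = θ * x + x ^ Fintype.card F := by
  simp [carl]

theorem carl_C (θ x : L) (c : F) : carl θ (C c) x = algebraMap F L c * x := by
  simp [carl, Algebra.smul_def]

theorem carl_one (θ x : L) : carl θ (1 : F[X]) x = x := by simp [carl]

theorem carl_add (θ x : L) (a b : F[X]) : carl θ (a + b) x = carl θ a x + carl θ b x := by
  simp [carl]

theorem carl_sub (θ x : L) (a b : F[X]) : carl θ (a - b) x = carl θ a x - carl θ b x := by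
  simp [carl]

theorem carl_mul (θ x : L) (a b : F[X]) : carl θ (a * b) x = carl θ a (carl θ b x) := by
  simp [carl]

theorem carl_comm (θ x : L) (a b : F[X]) : carl θ a (carl θ b x) = carl θ b (carl θ a x) := by
  rw [← carl_mul, mul_comm, carl_mul]

omit [Fintype F] in
theorem poly_ind {p : F[X] → Prop} (h1 : ∀ c, p (C c)) (h2 : ∀ a b, p a → p b → p (a + b))
    (h3 : ∀ a, p a → p (X * a)) (a : F[X]) : p a := by
  refine Polynomial.induction_on a h1 h2 fun n c h => ?_
  have := h3 _ h
  rwa [show X * (C c * X ^ n) = C c * X ^ (n + 1) by ring] at this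

theorem map_carl {L' : Type*} [CommRing L'] [Algebra F L'] (f : L →+* L')
    (hf : ∀ c, f (algebraMap F L c) = algebraMap F L' c) (θ x : L) (a : F[X]) :
    f (carl θ a x) = carl (f θ) a (f x) := by
  refine poly_ind (p := fun a => f (carl θ a x) = carl (f θ) a (f x)) ?_ ?_ ?_ a
  · intro c; rw [carl_C, carl_C, map_mul, hf]
  · intro a b ha hb; rw [carl_add, carl_add, map_add, ha, hb]
  · intro a ha; rw [carl_mul, carl_mul, carl_X, carl_X, map_add, map_mul, map_pow, ha]

theorem carl_mem (O : Subalgebra F L) {θ x : L} (hθ : θ ∈ O) (hx : x ∈ O) (a : F[X]) :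
    carl θ a x ∈ O := by
  refine poly_ind (p := fun a => carl θ a x ∈ O) ?_ ?_ ?_ a
  · intro c; rw [carl_C]; exact O.mul_mem (O.algebraMap_mem c) hx
  · intro a b ha hb; rw [carl_add]; exact O.add_mem ha hb
  · intro a ha; rw [carl_mul, carl_X]; exact O.add_mem (O.mul_mem hθ ha) (O.pow_mem ha _)

theorem dvd_carl (θ x : L) (a : F[X]) : x ∣ carl θ a x := by
  refine poly_ind (p := fun a => x ∣ carl θ a x) ?_ ?_ ?_ a
  · intro c; rw [carl_C]; exact dvd_mul_left _ _
  · intro a b ha hb; rw [carl_add]; exact dvd_add ha hb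
  · intro a ha
    rw [carl_mul, carl_X]
    exact dvd_add (ha.mul_left _) (dvd_pow ha Fintype.card_ne_zero)

theorem eval_cp (θ x : L) (a : F[X]) :
    eval₂ (aeval θ : F[X] →ₐ[F] L).toRingHom x (cp a) = carl θ a x := by
  have := map_carl (eval₂RingHom (aeval θ : F[X] →ₐ[F] L).toRingHom x)
    (fun c => by simp [Polynomial.algebraMap_apply]) (C X) X a
  simpa [cp] using this

theorem cp_lin (a : F[X]) : X ^ 2 ∣ cp a - C a * X := by
  refine poly_ind (p := fun a => X ^ 2 ∣ cp a - C a * X) ?_ ?_ ?_ a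
  · intro c; simp [cp, carl_C, Polynomial.algebraMap_apply]
  · intro a b ha hb
    have := dvd_add ha hb
    rwa [show cp a - C a * X + (cp b - C b * X) = cp (a + b) - C (a + b) * X by
      simp only [cp, carl_add, map_add]; ring] at this
  · intro a ha
    have h1 : X ^ 2 ∣ cp a ^ Fintype.card F :=
      (pow_dvd_pow X Fintype.one_lt_card).trans (pow_dvd_pow_of_dvd (dvd_carl _ _ a) _)
    have := dvd_add (ha.mul_left (C X)) h1
    rwa [show C X * (cp a - C a * X) + cp a ^ Fintype.card F = cp (X * a) - C (X * a) * X by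
      simp only [cp, carl_mul, carl_X, map_mul]; ring] at this

theorem X_mul_divX_cp (a : F[X]) : X * (cp a).divX = cp a := by
  have h : (cp a).coeff 0 = 0 := X_dvd_iff.1 (dvd_carl _ _ a)
  have := X_mul_divX_add (cp a)
  rwa [h, map_zero, add_zero] at this

theorem coeff_divX_cp (a : F[X]) : (cp a).divX.coeff 0 = a := by
  have := X_pow_dvd_iff.1 (cp_lin a) 1 (by norm_num)
  rw [coeff_sub, coeff_C_mul, coeff_X_one, mul_one, sub_eq_zero] at this
  rw [coeff_divX, this]

theorem cp_X_pow (n : ℕ) : (cp (X ^ n : F[X])).Monic ∧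
    (cp (X ^ n : F[X])).natDegree = Fintype.card F ^ n := by
  induction n with
  | zero => simp [cp, carl_one]
  | succ n ih =>
    have h1 : cp (X ^ (n + 1) : F[X]) = cp (X ^ n) ^ Fintype.card F + C X * cp (X ^ n) := by
      simp only [cp]; rw [pow_succ', carl_mul, carl_X, add_comm]
    have h2 := ih.1.pow (Fintype.card F)
    have h3 : (cp (X ^ n : F[X]) ^ Fintype.card F).natDegree = Fintype.card F ^ (n + 1) := by
      rw [ih.1.natDegree_pow, ih.2, pow_succ']
    have h4 : (C X * cp (X ^ n : F[X])).natDegree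
        < (cp (X ^ n : F[X]) ^ Fintype.card F).natDegree := by
      rw [h3]
      refine (natDegree_C_mul_le _ _).trans_lt ?_
      rw [ih.2]
      exact Nat.pow_lt_pow_right Fintype.one_lt_card (by omega)
    rw [h1]
    exact ⟨h2.add_of_left (degree_lt_degree h4), by rw [natDegree_add_eq_left_of_natDegree_lt h4, h3]⟩

theorem cp_monic {P : F[X]} (hP : P.Monic) :
    (cp P).Monic ∧ (cp P).natDegree = Fintype.card F ^ P.natDegree := by
  have h1 : cp P = cp (X ^ P.natDegree)
      + ∑ i ∈ range P.natDegree, algebraMap F F[X][X] (P.coeff i) * cp (X ^ i) := by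
    conv_lhs => rw [hP.as_sum]
    simp only [cp, carl_add]
    congr 1
    rw [carl, map_sum, LinearMap.sum_apply]
    exact sum_congr rfl fun i _ => (carl_mul _ _ _ _).trans (carl_C _ _ _)
  have h2 : (∑ i ∈ range P.natDegree, algebraMap F F[X][X] (P.coeff i) * cp (X ^ i)).degree
      < (cp (X ^ P.natDegree : F[X])).degree := by
    rw [degree_eq_natDegree (cp_X_pow _).1.ne_zero, (cp_X_pow _).2]
    refine (degree_sum_le _ _).trans_lt ?_
    rw [Finset.sup_lt_iff (WithBot.bot_lt_coe _)]
    intro i hi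
    refine degree_le_natDegree.trans_lt ?_
    rw [Nat.cast_lt]
    refine (natDegree_C_mul_le _ _).trans_lt ?_
    rw [(cp_X_pow i).2]
    exact Nat.pow_lt_pow_right Fintype.one_lt_card (mem_range.1 hi)
  rw [h1]
  exact ⟨(cp_X_pow _).1.add_of_left h2, by
    rw [natDegree_add_eq_left_of_degree_lt h2, (cp_X_pow _).2]⟩

theorem divX_cp_monic {P : F[X]} (hP : P.Monic) :
    (cp P).divX.Monic ∧ (cp P).divX.natDegree = Fintype.card F ^ P.natDegree - 1 := by
  obtain ⟨h1, h2⟩ := cp_monic hP
  refine ⟨?_, by rw [natDegree_divX_eq_natDegree_tsub_one, h2]⟩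
  rw [← X_mul_divX_cp] at h1
  exact monic_X.of_mul_monic_left h1

end Defs

theorem eq_zero_of_roots {R ι : Type*} [CommRing R] [Fintype ι] (v : ι → R)
    (hv : ∀ i j, i ≠ j → IsUnit (v i - v j)) (h : R[X]) (hd : h.degree < Fintype.card ι)
    (hr : ∀ i, h.eval (v i) = 0) : h = 0 := by
  nontriviality R
  by_contra h0
  have h1 : ∏ i, (X - C (v i)) ∣ h :=
    Fintype.prod_dvd_of_coprime (fun i j hij => isCoprime_X_sub_C_of_isUnit_sub (hv i j hij))
      fun i => dvd_iff_isRoot.2 (hr i)
  have h2 : (∏ i, (X - C (v i))).Monic := monic_prod_of_monic _ _ fun i _ => monic_X_sub_C _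
  refine h2.not_dvd_of_degree_lt h0 ?_ h1
  rw [degree_eq_natDegree h2.ne_zero, natDegree_prod_of_monic _ _ fun i _ => monic_X_sub_C _]
  simpa using hd

end Pool.Agent.Lib.KU
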