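import Pool.Agent.Lib.MP_091276_al.KU.Carl

set_option autoImplicit false

/-! The cyclotomic algebra at infinity. -/

namespace Pool.Agent.Lib.KU

open Polynomial Finset

variable {F : Type*} [Field F] [Fintype F] {K : Type*} [Field K] [Algebra F K]

/-- `K[Y] / (C_P(Y) / Y)`, with `T` sent to `t`. -/
abbrev Lf (t : K) (P : F[X]) : Type _ :=
  AdjoinRoot ((cp P).divX.map (aeval t : F[X] →ₐ[F] K).toRingHom)

/-- The image of `T`. -/
noncomputable def th (t : K) (P : F[X]) : Lf t P := AdjoinRoot.of _ t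

/-- The torsion point `λ`. -/
noncomputable def lam (t : K) (P : F[X]) : Lf t P := AdjoinRoot.root _

theorem th_eq (t : K) (P : F[X]) : th t P = algebraMap K (Lf t P) t := rfl

theorem aeval_th (t : K) (P a : F[X]) :
    aeval (th t P) a = algebraMap K (Lf t P) (aeval t a) := by
  rw [th_eq, aeval_algebraMap_apply]

theorem phi_eval (t : K) (P : F[X]) (x : Lf t P) :
    aeval x ((cp P).divX.map (aeval t : F[X] →ₐ[F] K).toRingHom)
      = eval₂ (aeval (th t P) : F[X] →ₐ[F] Lf t P).toRingHom x (cp P).divX := by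
  rw [aeval_def, eval₂_map]
  congr 1
  exact RingHom.ext fun a => (aeval_th t P a).symm

theorem phi_lam (t : K) (P : F[X]) :
    eval₂ (aeval (th t P) : F[X] →ₐ[F] Lf t P).toRingHom (lam t P) (cp P).divX = 0 := by
  rw [← phi_eval, lam, AdjoinRoot.aeval_eq, AdjoinRoot.mk_self]

theorem mul_phi {L : Type*} [CommRing L] [Algebra F L] (θ x : L) (P : F[X]) :
    x * eval₂ (aeval θ : F[X] →ₐ[F] L).toRingHom x (cp P).divX = carl θ P x := by
  rw [← eval_cp]
  conv_rhs => rw [← X_mul_divX_cp P, eval₂_mul, eval₂_X]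

theorem dvd_of_phi {L : Type*} [CommRing L] [Algebra F L] {θ x : L} {P : F[X]}
    (h : eval₂ (aeval θ : F[X] →ₐ[F] L).toRingHom x (cp P).divX = 0) : x ∣ aeval θ P := by
  rw [← X_mul_divX_add (cp P).divX, coeff_divX_cp, eval₂_add, eval₂_mul, eval₂_X, eval₂_C] at h
  refine ⟨-eval₂ (aeval θ : F[X] →ₐ[F] L).toRingHom x (cp P).divX.divX, ?_⟩
  have h2 : (aeval θ : F[X] →ₐ[F] L).toRingHom P = aeval θ P := rfl
  rw [h2] at h
  linear_combination h

theorem carl_P_lam (t : K) (P : F[X]) : carl (th t P) P (lam t P) = 0 := by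
  rw [← mul_phi, phi_lam, mul_zero]

theorem lam_unit {t : K} {P : F[X]} (ht : aeval t P ≠ 0) : IsUnit (lam t P) := by
  refine isUnit_of_dvd_unit (dvd_of_phi (phi_lam t P)) ?_
  rw [aeval_th]; exact (IsUnit.mk0 _ ht).map _

theorem carl_lam_unit {t : K} {P : F[X]} (hP : Irreducible P) (ht : aeval t P ≠ 0) {b : F[X]}
    (hb : ¬ P ∣ b) : IsUnit (carl (th t P) b (lam t P)) := by
  obtain ⟨u, v, h⟩ := hP.coprime_iff_not_dvd.2 hb
  refine isUnit_of_dvd_unit ?_ (lam_unit ht)
  have : carl (th t P) v (carl (th t P) b (lam t P)) = lam t P := by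
    conv_rhs => rw [← carl_one (F := F) (th t P) (lam t P), ← h, carl_add, carl_mul, carl_mul,
      carl_P_lam, map_zero, zero_add]
  conv_rhs => rw [← this]
  exact dvd_carl _ _ _

theorem exists_sigma {t : K} {P : F[X]} (hP : Irreducible P) (ht : aeval t P ≠ 0) {b : F[X]}
    (hb : ¬ P ∣ b) : ∃ σ : Lf t P →ₐ[K] Lf t P, σ (lam t P) = carl (th t P) b (lam t P) := by
  have h : aeval (carl (th t P) b (lam t P))
      ((cp P).divX.map (aeval t : F[X] →ₐ[F] K).toRingHom) = 0 := by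
    rw [phi_eval, ← (carl_lam_unit hP ht hb).mul_right_eq_zero, mul_phi, carl_comm, carl_P_lam,
      map_zero]
  exact ⟨AdjoinRoot.liftAlgHom _ (Algebra.ofId K _) _ h, AdjoinRoot.liftAlgHom_root _ _ _ _⟩

theorem lam_gen (t : K) (P : F[X]) (x : Lf t P) : ∃ h : K[X], x = aeval (lam t P) h := by
  obtain ⟨h, rfl⟩ := AdjoinRoot.mk_surjective x
  exact ⟨h, (AdjoinRoot.aeval_eq h).symm⟩

theorem lf_nontrivial (t : K) {P : F[X]} (hP : P.Monic) (hd : 0 < P.natDegree) :
    Nontrivial (Lf t P) := by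
  refine AdjoinRoot.nontrivial _ ?_
  obtain ⟨h1, h2⟩ := divX_cp_monic hP
  rw [degree_eq_natDegree (h1.map _).ne_zero, h1.natDegree_map, h2]
  have := Nat.one_lt_pow hd.ne' (Fintype.one_lt_card (α := F))
  exact_mod_cast (by omega : Fintype.card F ^ P.natDegree - 1 ≠ 0)

end Pool.Agent.Lib.KU
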