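import Pool.Agent.Lib.MP_091276_al.KU.Ten

set_option autoImplicit false
set_option linter.unusedSectionVars false

/-! Gauss-Thakur sums and the generator lemma. -/

namespace Pool.Agent.Lib.KU

open Polynomial Finset TensorProduct

namespace Ctx

variable {F E L : Type*} [Field F] [Fintype F] [Field E] [Fintype E] [Algebra F E]
  [CommRing L] [Algebra F L] (c : Ctx F E L)

/-- The conjugates of `T mod P`. -/
noncomputable def z (i : ℕ) : E := c.mk' X ^ Fintype.card F ^ i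

theorem z_succ (i : ℕ) : c.z (i + 1) = c.z i ^ Fintype.card F := by
  rw [z, z, ← pow_mul, pow_succ]

/-- Gauss-Thakur sums. -/
noncomputable def G (i : ℕ) : E ⊗[F] L := ∑ a : E, (a⁻¹ ^ Fintype.card F ^ i) ⊗ₜ c.ell a

theorem G_shift (i : ℕ) (b : E) : ∑ a : E, (a⁻¹ ^ Fintype.card F ^ i) ⊗ₜ[F] c.ell (b * a)
    = c.jB (HahnSeries.C (b ^ Fintype.card F ^ i)) * c.G i := by
  have hq : Fintype.card F ^ i ≠ 0 := pow_ne_zero _ Fintype.card_ne_zero
  rw [jB_C]
  by_cases hb : b = 0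
  · simp [hb]
  rw [G, mul_sum]
  refine Fintype.sum_equiv (Equiv.mulLeft₀ b hb) _ _ fun a => ?_
  rw [Algebra.TensorProduct.tmul_mul_tmul, one_mul, Equiv.mulLeft₀_apply, ← mul_pow, mul_inv,
    mul_inv_cancel_left₀ hb]

theorem s_G (b : Eˣ) (i : ℕ) :
    c.s b (c.G i) = c.jB (HahnSeries.C ((b : E) ^ Fintype.card F ^ i)) * c.G i := by
  rw [← G_shift, G, map_sum]
  exact sum_congr rfl fun a _ => by rw [s_tmul, S_ell, mul_comm]

theorem ta_G (i : ℕ) : ta F E L (c.G i) = c.jB (ev (C (c.z i) - X)) * c.G i := by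
  rw [ev, eval₂_sub, eval₂_C, eval₂_X, map_sub, sub_mul, z, ← G_shift, jB_T, G, map_sum, mul_sum,
    ← sum_sub_distrib]
  refine sum_congr rfl fun a _ => ?_
  rw [ta_tmul, ell_z, Algebra.TensorProduct.tmul_mul_tmul, one_mul, tmul_add, add_sub_cancel_left]

theorem ph_G (i : ℕ) : ph F E L (c.G i) = c.G (i + 1) := by
  rw [G, G, map_sum]
  exact sum_congr rfl fun a _ => by rw [ph_tmul, ← pow_mul, pow_succ]

theorem G_pow (i : ℕ) :
    c.G i ^ Fintype.card F = c.jB (ev (C (c.z (i + 1)) - X)) * c.G (i + 1) := by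
  rw [pow_card, ta_G, map_mul, ph_G]
  simp only [ev, eval₂_sub, eval₂_C, eval₂_X, map_sub, jB_C, jB_T, ph_tmul, one_pow, z_succ]

theorem G_ne [Nontrivial L] : c.G 0 ≠ 0 := by
  classical
  obtain ⟨ρ, hρ⟩ := c.ell.exists_leftInverse_of_injective (LinearMap.ker_eq_bot'.2 fun b hb => by
    by_contra h0
    exact (c.ell_unit h0).ne_zero hb)
  intro h
  have h1 := congrArg (fun x => LinearMap.mul' F E (LinearMap.lTensor E ρ x)) h
  simp only [G, map_sum, LinearMap.lTensor_tmul, LinearMap.mul'_apply, map_zero, pow_zero,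
    pow_one] at h1
  have h2 : ∀ a : E, a⁻¹ * ρ (c.ell a) = 1 - if a = 0 then 1 else 0 := by
    intro a
    rw [show ρ (c.ell a) = a from LinearMap.congr_fun hρ a]
    split_ifs with ha
    · simp [ha]
    · simp [ha]
  simp [h2] at h1

theorem ev_ne (a : E) : ev (C a - X) ≠ 0 := by
  rw [ev, eval₂_sub, eval₂_C, eval₂_X]; exact sub_ne_zero.2 (C_ne_TT a)

theorem G_unit [Nontrivial L] {d : ℕ} (hd : Fintype.card E = Fintype.card F ^ d) (i : ℕ) :
    IsUnit (c.G i) := by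
  have h1 : ∀ i, ∃ w, w ≠ 0 ∧ c.G 0 ^ Fintype.card F ^ i = c.jB w * c.G i := by
    intro i
    induction i with
    | zero => exact ⟨1, one_ne_zero, by simp⟩
    | succ i ih =>
      obtain ⟨w, hw, h⟩ := ih
      refine ⟨w ^ Fintype.card F * ev (C (c.z (i + 1)) - X),
        mul_ne_zero (pow_ne_zero _ hw) (ev_ne _), ?_⟩
      rw [pow_succ, pow_mul, h, mul_pow, G_pow, map_mul, map_pow, mul_assoc]
  have h0 : IsUnit (c.G 0) := by
    obtain ⟨w, hw, h⟩ := h1 d
    have hG : c.G d = c.G 0 := by simp [G, ← hd, FiniteField.pow_card]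
    obtain ⟨y, hy⟩ := c.inv_R (c.G 0 ^ (Fintype.card E - 1)) fun b => by
      rw [map_pow, s_G, mul_pow, ← map_pow, ← map_pow, pow_zero, pow_one,
        FiniteField.pow_card_sub_one_eq_one _ b.ne_zero, map_one, map_one, one_mul]
    have h2 : 1 < Fintype.card E := Fintype.one_lt_card
    have hy0 : y ≠ 0 := by
      rintro rfl
      rw [hG, ← hd, ← pow_sub_one_mul (by omega), hy, map_zero, zero_mul, eq_comm,
        ((IsUnit.mk0 w hw).map c.jB).mul_right_eq_zero] at h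
      exact c.G_ne h
    rw [← isUnit_pow_iff (n := Fintype.card E - 1) (by omega), hy]
    exact (IsUnit.mk0 y hy0).map _
  obtain ⟨w, _, h⟩ := h1 i
  exact isUnit_of_mul_isUnit_right (h ▸ h0.pow _)

/-- The ring of integers `F[T, λ]`. -/
def O : Subalgebra F L := Algebra.adjoin F {c.θ, c.lam}

theorem θ_mem : c.θ ∈ c.O := Algebra.subset_adjoin (by simp)

theorem lam_mem : c.lam ∈ c.O := Algebra.subset_adjoin (by simp)

theorem ell_mem (a : E) : c.ell a ∈ c.O := carl_mem _ c.θ_mem c.lam_mem _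

theorem S_mem (b : Eˣ) {o : L} (ho : o ∈ c.O) : c.S b o ∈ c.O := by
  have : c.O ≤ c.O.comap (c.S b) := Algebra.adjoin_le (by
    rintro _ (rfl | rfl)
    · change c.S b c.θ ∈ c.O
      rw [S_θ]; exact c.θ_mem
    · change c.S b c.lam ∈ c.O
      rw [S_lam]; exact c.ell_mem _)
  exact this ho

/-- `F_P ⊗ O`. -/
noncomputable def OR : Subalgebra F (E ⊗[F] L) :=
  (Algebra.TensorProduct.map (AlgHom.id F E) c.O.val).range

theorem tmul_mem (a : E) {o : L} (ho : o ∈ c.O) : a ⊗ₜ o ∈ c.OR := ⟨a ⊗ₜ ⟨o, ho⟩, rfl⟩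

theorem OR_ind {p : E ⊗[F] L → Prop} (h0 : p 0) (h1 : ∀ a, ∀ o ∈ c.O, p (a ⊗ₜ o))
    (h2 : ∀ x y, p x → p y → p (x + y)) : ∀ x ∈ c.OR, p x := by
  rintro _ ⟨t, rfl⟩
  change p (Algebra.TensorProduct.map (AlgHom.id F E) c.O.val t)
  induction t using TensorProduct.induction_on with
  | zero => simpa using h0
  | tmul a o => exact h1 a o o.2
  | add x y hx hy => rw [map_add]; exact h2 _ _ hx hy

theorem ta_mem : ∀ x ∈ c.OR, ta F E L x ∈ c.OR :=
  c.OR_ind (by simp) (fun a o ho => by rw [ta_tmul]; exact c.tmul_mem _ (pow_mem ho _))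
    fun x y hx hy => by rw [map_add]; exact add_mem hx hy

theorem s_mem (b : Eˣ) : ∀ x ∈ c.OR, c.s b x ∈ c.OR :=
  c.OR_ind (by simp) (fun a o ho => by rw [s_tmul]; exact c.tmul_mem _ (c.S_mem b ho))
    fun x y hx hy => by rw [map_add]; exact add_mem hx hy

theorem G_mem (i : ℕ) : c.G i ∈ c.OR := sum_mem fun a _ => c.tmul_mem _ (c.ell_mem a)

theorem jB_ev_mem (f : E[X]) : c.jB (ev f) ∈ c.OR := by
  induction f using Polynomial.induction_on' with
  | add f g hf hg => rw [ev, eval₂_add, map_add]; exact add_mem hf hg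
  | monomial n a =>
    rw [ev, eval₂_monomial, map_mul, map_pow, jB_C, jB_T]
    exact mul_mem (c.tmul_mem _ (one_mem _)) (pow_mem (c.tmul_mem _ c.θ_mem) _)

theorem inv_OR [Nontrivial L] {y : LaurentSeries E} (hy : c.jB y ∈ c.OR) : ∃ f, y = ev f := by
  let e : E[X] →+* E ⊗[F] L :=
    c.jB.comp (eval₂RingHom (HahnSeries.C : E →+* LaurentSeries E) (TT E))
  have he : ∀ f, e f = c.jB (ev f) := fun f => rfl
  have h1 : ∀ o ∈ c.O, ∃ h, (1 : E) ⊗ₜ[F] o = eval₂ e (1 ⊗ₜ c.lam) h := by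
    intro o ho
    induction ho using Algebra.adjoin_induction with
    | mem x hx =>
      rcases hx with rfl | rfl
      · exact ⟨C X, by rw [eval₂_C, he, ev, eval₂_X, jB_T]⟩
      · exact ⟨X, by rw [eval₂_X]⟩
    | algebraMap a =>
      refine ⟨C (C (algebraMap F E a)), ?_⟩
      rw [eval₂_C, he, ev, eval₂_C, jB_C]
      simp [Algebra.algebraMap_eq_smul_one, TensorProduct.smul_tmul]
    | add x y _ _ hx hy =>
      obtain ⟨p, hp⟩ := hx
      obtain ⟨r, hr⟩ := hy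
      exact ⟨p + r, by rw [tmul_add, hp, hr, eval₂_add]⟩
    | mul x y _ _ hx hy =>
      obtain ⟨p, hp⟩ := hx
      obtain ⟨r, hr⟩ := hy
      exact ⟨p * r, by rw [eval₂_mul, ← hp, ← hr, Algebra.TensorProduct.tmul_mul_tmul, one_mul]⟩
  obtain ⟨h, hh⟩ := c.OR_ind (p := fun x => ∃ h, x = eval₂ e (1 ⊗ₜ c.lam) h) ⟨0, by simp⟩
    (fun a o ho => by
      obtain ⟨p, hp⟩ := h1 o ho
      refine ⟨C (C a) * p, ?_⟩
      rw [eval₂_mul, ← hp, eval₂_C, he, ev, eval₂_C, jB_C, Algebra.TensorProduct.tmul_mul_tmul,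
        mul_one, one_mul])
    (by
      rintro _ _ ⟨p, rfl⟩ ⟨r, rfl⟩
      exact ⟨p + r, by rw [eval₂_add]⟩) _ hy
  obtain ⟨f, hf⟩ := c.inv_poly (mapRingHom (algebraMap F E)) e (fun f => c.jB_ev f)
    (fun b y => c.s_jB b _) h fun b => by rw [← hh, s_jB]
  exact ⟨f, c.jB.injective (hh.trans hf)⟩

/-- The product of Gauss-Thakur sums with exponents `n`. -/
noncomputable def gg (n : ℕ → ℕ) (d : ℕ) : E ⊗[F] L := ∏ i ∈ range d, c.G i ^ n i

theorem gg_mem (n : ℕ → ℕ) (d : ℕ) : c.gg n d ∈ c.OR :=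
  prod_mem fun i _ => pow_mem (c.G_mem i) _

theorem gg_unit [Nontrivial L] {d : ℕ} (hd : Fintype.card E = Fintype.card F ^ d) (n : ℕ → ℕ) :
    IsUnit (c.gg n d) := IsUnit.prod_iff.2 fun i _ => (c.G_unit hd i).pow _

theorem ev_bet (z : ℕ → E) (n : ℕ → ℕ) (d : ℕ) :
    ev (bet z n d) = ∏ i ∈ range d, ev (C (z i) - X) ^ n i := by
  simp only [ev, bet, eval₂_finsetProd, eval₂_pow]

theorem ta_gg (n : ℕ → ℕ) (d : ℕ) :
    ta F E L (c.gg n d) = c.jB (ev (bet c.z n d)) * c.gg n d := by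
  rw [ev_bet, gg, map_prod, map_prod, ← prod_mul_distrib]
  exact prod_congr rfl fun i _ => by rw [map_pow, ta_G, mul_pow, map_pow]

theorem s_gg (b : Eˣ) (n : ℕ → ℕ) (d : ℕ) : c.s b (c.gg n d)
    = c.jB (HahnSeries.C ((b : E) ^ ∑ i ∈ range d, Fintype.card F ^ i * n i)) * c.gg n d := by
  rw [← prod_pow_eq_pow_sum, gg, map_prod, map_prod, map_prod, ← prod_mul_distrib]
  exact prod_congr rfl fun i _ => by
    rw [map_pow, s_G, mul_pow, pow_mul, map_pow _ _ (n i), map_pow _ _ (n i)]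

theorem z_per {d : ℕ} (hd : Fintype.card E = Fintype.card F ^ d) : c.z d = c.z 0 := by
  rw [z, z, ← hd, FiniteField.pow_card, pow_zero, pow_one]

theorem bet_shift {d : ℕ} (hd : Fintype.card E = Fintype.card F ^ d) :
    ∏ i ∈ range d, ev (C (c.z (i + 1)) - X) = ev (bet c.z (fun _ => 1) d) := by
  rw [ev_bet]
  simp only [pow_one]
  have := prod_range_succ' (fun i => ev (C (c.z i) - X)) d
  rw [prod_range_succ, c.z_per hd] at this
  exact (mul_right_cancel₀ (ev_ne _) this).symm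

theorem gg_full [Nontrivial L] {d : ℕ} (hd : Fintype.card E = Fintype.card F ^ d) :
    c.gg (fun _ => Fintype.card F - 1) d = c.jB (ev (bet c.z (fun _ => 1) d)) := by
  have hG : c.G d = c.G 0 := by simp [G, ← hd, FiniteField.pow_card]
  have h1 : ∏ i ∈ range d, c.G (i + 1) = ∏ i ∈ range d, c.G i := by
    have := prod_range_succ' c.G d
    rw [prod_range_succ, hG] at this
    exact ((c.G_unit hd 0).mul_right_cancel this).symm
  refine (IsUnit.prod_iff.2 fun i (_ : i ∈ range d) => c.G_unit hd i).mul_right_cancel ?_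
  rw [← c.bet_shift hd, map_prod]
  conv_rhs => rw [← h1]
  rw [gg, ← prod_mul_distrib, ← prod_mul_distrib]
  exact prod_congr rfl fun i _ => by rw [pow_sub_one_mul Fintype.card_ne_zero, G_pow]

theorem ev_inj {f g : E[X]} (h : ev f = ev g) : f = g := by
  ext j
  have h1 := coeff_ev f (-j)
  rw [h, coeff_ev] at h1
  simpa using h1.symm

/-- The generator lemma. -/
theorem gen_lemma [Nontrivial L] {d : ℕ} (hd : Fintype.card E = Fintype.card F ^ d)
    (hinj : ∀ i < d, ∀ j < d, c.z i = c.z j → i = j) (n : ℕ → ℕ)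
    (hn : ∀ i < d, n i ≤ Fintype.card F - 1) {i0 : ℕ} (hi0 : i0 < d)
    (hlt : n i0 < Fintype.card F - 1) {y : LaurentSeries E} (hy : c.gg n d * c.jB y ∈ c.OR) :
    ∃ f, y = ev f := by
  set Pz := bet c.z (fun _ => 1) d with hPz
  have hP0 : ev Pz ≠ 0 := by
    rw [ev_bet]; exact prod_ne_zero_iff.2 fun i _ => pow_ne_zero _ (ev_ne _)
  have h1 : ∀ y, c.gg n d * c.jB y ∈ c.OR → ∃ f, ev Pz * y = ev f := by
    intro y hy
    refine c.inv_OR ?_
    have : c.gg (fun i => Fintype.card F - 1 - n i) d * c.gg n d = c.jB (ev Pz) := by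
      rw [← c.gg_full hd, gg, gg, gg, ← prod_mul_distrib]
      exact prod_congr rfl fun i hi => by
        rw [← pow_add, Nat.sub_add_cancel (hn i (mem_range.1 hi))]
    rw [map_mul, ← this, mul_assoc]
    exact mul_mem (c.gg_mem _ _) hy
  have hτ : tB F E (ev Pz) = ev Pz ^ Fintype.card F := by
    conv_lhs => rw [← c.bet_shift hd]
    rw [ev_bet, map_prod, ← prod_pow]
    refine prod_congr rfl fun i _ => ?_
    have := map_sub (FiniteField.frobeniusAlgHom F (LaurentSeries E)) (HahnSeries.C (c.z i)) (TT E)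
    simp only [FiniteField.coe_frobeniusAlgHom] at this
    simp only [ev, eval₂_sub, eval₂_C, eval₂_X, map_sub, tB_C, tB_T, pow_one, this]
    rw [z_succ, map_pow]
  obtain ⟨f, hf⟩ := h1 y hy
  obtain ⟨f', rfl⟩ := gen_poly c.z_succ (c.z_per hd) hinj n hn hi0 hlt
    {f | ∃ y, c.gg n d * c.jB y ∈ c.OR ∧ ev Pz * y = ev f} (by
      rintro f ⟨y, hy, hf⟩
      have h2 : c.gg n d * c.jB (ev (bet c.z n d) * tB F E y) ∈ c.OR := by
        have := c.ta_mem _ hy
        rwa [map_mul, ta_gg, ta_jB, mul_comm (c.jB _), mul_assoc, ← map_mul] at this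
      obtain ⟨f1, hf1⟩ := h1 _ h2
      refine ⟨f1, ⟨_, h2, hf1⟩, ev_inj ?_⟩
      have h3 := congrArg (tB F E) hf
      rw [map_mul, hτ, ev, ev, tau_eval tB_C tB_T] at h3
      simp only [ev, eval₂_mul, eval₂_pow] at hf1 ⊢
      rw [← hf1, ← h3, ← pow_sub_one_mul Fintype.card_ne_zero (eval₂ _ _ Pz)]
      ring) f ⟨y, hy, hf⟩
  refine ⟨f', mul_left_cancel₀ hP0 ?_⟩
  rw [hf, ev, eval₂_mul]

end Ctx

end Pool.Agent.Lib.KU
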