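import Pool.Agent.Lib.MP_091276_al.KU.Cyc

set_option autoImplicit false

/-! The algebra `F_P ⊗ L`, its operators and invariants. -/

namespace Pool.Agent.Lib.KU

open Polynomial Finset TensorProduct

/-- Data of a Carlitz cyclotomic algebra at infinity. -/
structure Ctx (F E L : Type*) [Field F] [Fintype F] [Field E] [Fintype E] [Algebra F E]
    [CommRing L] [Algebra F L] where
  P : F[X]
  mk' : F[X] →ₐ[F] E
  mk_zero : ∀ a, mk' a = 0 ↔ P ∣ a
  rep : E →ₗ[F] F[X]
  mk_rep : ∀ a, mk' (rep a) = a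
  θ : L
  lam : L
  g : LaurentSeries F →+* L
  g_C : ∀ a, g (HahnSeries.C a) = algebraMap F L a
  g_T : g (TT F) = θ
  hP : carl θ P lam = 0
  unit : ∀ b, ¬ P ∣ b → IsUnit (carl θ b lam)
  sig : ∀ b, ¬ P ∣ b → ∃ σ : L →ₐ[F] L, (∀ y, σ (g y) = g y) ∧ σ lam = carl θ b lam
  gen : ∀ x, ∃ h, x = eval₂ g lam h
  Φ : F[X][X]
  Φ_monic : Φ.Monic
  Φ_deg : Φ.natDegree = Fintype.card E - 1
  Φ_lam : eval₂ (aeval θ : F[X] →ₐ[F] L).toRingHom lam Φ = 0

namespace Ctx

variable {F E L : Type*} [Field F] [Fintype F] [Field E] [Fintype E] [Algebra F E]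
  [CommRing L] [Algebra F L] (c : Ctx F E L)

theorem dvd_sub (a : F[X]) : c.P ∣ a - c.rep (c.mk' a) := by
  rw [← c.mk_zero, map_sub, c.mk_rep, sub_self]

theorem not_dvd {a : E} (ha : a ≠ 0) : ¬ c.P ∣ c.rep a := by
  rw [← c.mk_zero, c.mk_rep]; exact ha

/-- The torsion points. -/
noncomputable def ell : E →ₗ[F] L where
  toFun a := carl c.θ (c.rep a) c.lam
  map_add' a b := by rw [map_add, carl_add]
  map_smul' a b := by simp [carl]

theorem ell_mk (b : F[X]) : c.ell (c.mk' b) = carl c.θ b c.lam := by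
  obtain ⟨u, hu⟩ := c.dvd_sub b
  have : carl c.θ (b - c.rep (c.mk' b)) c.lam = 0 := by
    rw [hu, mul_comm, carl_mul, c.hP, map_zero]
  rw [carl_sub, sub_eq_zero] at this
  exact this.symm

theorem ell_unit {a : E} (ha : a ≠ 0) : IsUnit (c.ell a) := c.unit _ (c.not_dvd ha)

theorem ell_z (a : E) : c.ell (c.mk' X * a) = c.θ * c.ell a + c.ell a ^ Fintype.card F := by
  conv_lhs => rw [← c.mk_rep a, ← map_mul, ell_mk, carl_mul, carl_X]
  rfl

/-- The Galois action. -/
noncomputable def S (b : Eˣ) : L →ₐ[F] L := (c.sig _ (c.not_dvd b.ne_zero)).choose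

theorem S_g (b : Eˣ) (y : LaurentSeries F) : c.S b (c.g y) = c.g y :=
  (c.sig _ (c.not_dvd b.ne_zero)).choose_spec.1 y

theorem S_lam (b : Eˣ) : c.S b c.lam = c.ell b :=
  (c.sig _ (c.not_dvd b.ne_zero)).choose_spec.2

theorem S_θ (b : Eˣ) : c.S b c.θ = c.θ := by rw [← c.g_T, S_g]

theorem S_carl (b : Eˣ) (a : F[X]) (x : L) : c.S b (carl c.θ a x) = carl c.θ a (c.S b x) := by
  have := map_carl (c.S b).toRingHom (c.S b).commutes c.θ x a
  simpa [S_θ] using this

theorem S_ell (b : Eˣ) (a : E) : c.S b (c.ell a) = c.ell (a * b) := by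
  conv_rhs => rw [← c.mk_rep a, ← c.mk_rep b, ← map_mul, ell_mk, carl_mul]
  exact (c.S_carl b _ _).trans (by rw [S_lam]; rfl)

theorem hom_ext {σ σ' : L →+* L} (h : ∀ y, σ (c.g y) = σ' (c.g y)) (hl : σ c.lam = σ' c.lam)
    (x : L) : σ x = σ' x := by
  obtain ⟨p, rfl⟩ := c.gen x
  rw [hom_eval₂, hom_eval₂, hl]
  congr 1
  exact RingHom.ext h

theorem S_mul (a b : Eˣ) (x : L) : c.S a (c.S b x) = c.S (b * a) x :=
  c.hom_ext (σ := (c.S a).toRingHom.comp (c.S b).toRingHom) (σ' := (c.S (b * a)).toRingHom)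
    (fun y => by simp [S_g]) (by simp [S_lam, S_ell]) x

theorem g_ev (f : F[X]) : c.g (ev f) = aeval c.θ f := by
  rw [ev, hom_eval₂, c.g_T, aeval_def]
  congr 1
  exact RingHom.ext c.g_C

variable (F E L) in
/-- `τ = 1 ⊗ Frob`. -/
noncomputable def ta : E ⊗[F] L →ₐ[F] E ⊗[F] L :=
  Algebra.TensorProduct.map (AlgHom.id F E) (FiniteField.frobeniusAlgHom F L)

variable (F E L) in
/-- `φ = Frob ⊗ 1`. -/
noncomputable def ph : E ⊗[F] L →ₐ[F] E ⊗[F] L :=
  Algebra.TensorProduct.map (FiniteField.frobeniusAlgHom F E) (AlgHom.id F L)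

/-- `1 ⊗ σ_b`. -/
noncomputable def s (b : Eˣ) : E ⊗[F] L →ₐ[F] E ⊗[F] L :=
  Algebra.TensorProduct.map (AlgHom.id F E) (c.S b)

omit [Fintype E] in
theorem ta_tmul (a : E) (y : L) : ta F E L (a ⊗ₜ y) = a ⊗ₜ (y ^ Fintype.card F) := by simp [ta]

omit [Fintype E] in
theorem ph_tmul (a : E) (y : L) : ph F E L (a ⊗ₜ y) = (a ^ Fintype.card F) ⊗ₜ y := by simp [ph]

theorem s_tmul (b : Eˣ) (a : E) (y : L) : c.s b (a ⊗ₜ y) = a ⊗ₜ c.S b y := by simp [s]

omit [Fintype E] in
theorem pow_card (x : E ⊗[F] L) : x ^ Fintype.card F = ph F E L (ta F E L x) := by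
  induction x using TensorProduct.induction_on with
  | zero => simp
  | tmul a y => rw [ta_tmul, ph_tmul, Algebra.TensorProduct.tmul_pow]
  | add x y hx hy =>
    rw [map_add, map_add, ← hx, ← hy]
    exact map_add (FiniteField.frobeniusAlgHom F (E ⊗[F] L)) x y

theorem s_ta (b : Eˣ) (x : E ⊗[F] L) : c.s b (ta F E L x) = ta F E L (c.s b x) := by
  induction x using TensorProduct.induction_on with
  | zero => simp
  | tmul a y => rw [ta_tmul, s_tmul, s_tmul, ta_tmul, map_pow]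
  | add x y hx hy => simp only [map_add, hx, hy]

theorem s_mul (a b : Eˣ) (x : E ⊗[F] L) : c.s a (c.s b x) = c.s (b * a) x := by
  induction x using TensorProduct.induction_on with
  | zero => simp
  | tmul e y => rw [s_tmul, s_tmul, s_tmul, S_mul]
  | add x y hx hy => simp only [map_add, hx, hy]

theorem exists_jB : ∃ Λ : LaurentSeries E →+* E ⊗[F] L,
    ∀ a y, Λ (HahnSeries.C a * io F E y) = a ⊗ₜ c.g y := by
  obtain ⟨Λ, h⟩ := exists_lift (S := E ⊗[F] L)
    (Algebra.TensorProduct.includeLeftRingHom : E →+* E ⊗[F] L)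
    ((Algebra.TensorProduct.includeRight : L →ₐ[F] E ⊗[F] L).toRingHom.comp c.g) fun a => by
      rw [RingHom.comp_apply, c.g_C]
      simp [Algebra.algebraMap_eq_smul_one, TensorProduct.smul_tmul]
  exact ⟨Λ, fun a y => by rw [h]; simp⟩

/-- The embedding of `F_P((1/T))`. -/
noncomputable def jB : LaurentSeries E →+* E ⊗[F] L := c.exists_jB.choose

theorem jB_gen (a : E) (y : LaurentSeries F) :
    c.jB (HahnSeries.C a * io F E y) = a ⊗ₜ c.g y := c.exists_jB.choose_spec a y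

theorem jB_C (a : E) : c.jB (HahnSeries.C a) = a ⊗ₜ 1 := by simpa using c.jB_gen a 1

theorem jB_io (y : LaurentSeries F) : c.jB (io F E y) = 1 ⊗ₜ c.g y := by
  simpa using c.jB_gen 1 y

theorem jB_T : c.jB (TT E) = 1 ⊗ₜ c.θ := by
  rw [← c.g_T, ← jB_io, TT, TT, io_single, map_one (algebraMap F E)]

theorem s_jB (b : Eˣ) (y : LaurentSeries E) : c.s b (c.jB y) = c.jB y := by
  refine lau_ind' (F := F) (p := fun y => c.s b (c.jB y) = c.jB y) (by simp) ?_ ?_ y
  · intro a y; rw [jB_gen, s_tmul, S_g]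
  · intro x y hx hy; simp only [map_add, hx, hy]

variable (F E) in
theorem exists_tB : ∃ τ : LaurentSeries E →+* LaurentSeries E,
    (∀ a y, τ (HahnSeries.C a * io F E y) = HahnSeries.C a * io F E (y ^ Fintype.card F)) ∧
    (∀ (m : ℤ) (e : E), τ (HahnSeries.single m e) = HahnSeries.single (Fintype.card F * m) e) ∧
    ∀ m y, Ord m y → Ord (Fintype.card F * m) (τ y) :=
  exists_tau _ (FiniteField.frobeniusAlgHom F (LaurentSeries F)).toRingHom (fun _ => rfl)
    FiniteField.pow_card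

variable (F E) in
/-- `τ` on `F_P((1/T))`. -/
noncomputable def tB : LaurentSeries E →+* LaurentSeries E := (exists_tB F E).choose

theorem tB_C (a : E) : tB F E (HahnSeries.C a) = HahnSeries.C a := by
  rw [HahnSeries.C_apply, tB, (exists_tB F E).choose_spec.2.1, mul_zero]

theorem tB_T : tB F E (TT E) = TT E ^ Fintype.card F := by
  rw [TT, tB, (exists_tB F E).choose_spec.2.1, HahnSeries.single_pow]; simp

theorem ta_jB (y : LaurentSeries E) : ta F E L (c.jB y) = c.jB (tB F E y) := by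
  refine lau_ind' (F := F) (p := fun y => ta F E L (c.jB y) = c.jB (tB F E y)) (by simp) ?_ ?_ y
  · intro a y; rw [tB, (exists_tB F E).choose_spec.1, jB_gen, jB_gen, ta_tmul, map_pow]
  · intro x y hx hy; simp only [map_add, hx, hy]

theorem jB_ev (f : F[X]) : c.jB (ev (f.map (algebraMap F E))) = 1 ⊗ₜ aeval c.θ f := by
  rw [← g_ev, ← jB_io]
  congr 1
  ext m
  rw [coeff_io, coeff_ev, coeff_ev, coeff_map]
  split_ifs <;> simp

/-- An invariant value of a polynomial in `λ` with coefficients in a ring over `F_P[T]` comes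
from that ring. -/
theorem inv_poly {D : Type*} [CommRing D] [Nontrivial D] (i : F[X] →+* D) (e : D →+* E ⊗[F] L)
    (hi : ∀ f, e (i f) = 1 ⊗ₜ aeval c.θ f) (he : ∀ b y, c.s b (e y) = e y) (h : D[X])
    (hs : ∀ b, c.s b (eval₂ e (1 ⊗ₜ c.lam) h) = eval₂ e (1 ⊗ₜ c.lam) h) :
    ∃ y, eval₂ e (1 ⊗ₜ c.lam) h = e y := by
  classical
  have hm := c.Φ_monic.map i
  have h0 : eval₂ e (1 ⊗ₜ c.lam) (c.Φ.map i) = 0 := by
    have := congrArg (Algebra.TensorProduct.includeRight : L →ₐ[F] E ⊗[F] L).toRingHom c.Φ_lam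
    rw [hom_eval₂, map_zero] at this
    rw [eval₂_map, ← this]
    congr 1
    exact RingHom.ext hi
  have h1 : eval₂ e (1 ⊗ₜ c.lam) h = eval₂ e (1 ⊗ₜ c.lam) (h %ₘ c.Φ.map i) := by
    conv_lhs => rw [← modByMonic_add_div h (c.Φ.map i), eval₂_add, eval₂_mul, h0, zero_mul,
      add_zero]
  rw [h1] at hs ⊢
  have hd : (h %ₘ c.Φ.map i).degree < Fintype.card Eˣ := by
    refine (degree_modByMonic_lt h hm).trans_le ?_
    rw [degree_eq_natDegree hm.ne_zero, c.Φ_monic.natDegree_map, c.Φ_deg, Fintype.card_units]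
  generalize h %ₘ c.Φ.map i = p at hs hd
  have h2 := eq_zero_of_roots (fun b : Eˣ => ((1 : E) ⊗ₜ[F] c.ell b : E ⊗[F] L)) (fun a b hab => by
    rw [← TensorProduct.tmul_sub, ← map_sub]
    exact (c.ell_unit (sub_ne_zero.2 fun h => hab (Units.ext h))).map
      (Algebra.TensorProduct.includeRight : L →ₐ[F] E ⊗[F] L))
    (p.map e - C (eval₂ e (1 ⊗ₜ c.lam) p)) ?_ ?_
  · refine ⟨p.coeff 0, ?_⟩
    have := congrArg (fun r => r.coeff 0) h2
    simp only [coeff_sub, coeff_map, coeff_C_zero, coeff_zero, sub_eq_zero] at this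
    exact this.symm
  · refine (degree_sub_le _ _).trans_lt (max_lt (degree_map_le.trans_lt hd) ?_)
    exact degree_C_le.trans_lt (by exact_mod_cast Fintype.card_pos)
  · intro b
    rw [eval_sub, eval_C, eval_map, ← hs b, sub_eq_zero]
    have := hom_eval₂ p e (c.s b).toRingHom (1 ⊗ₜ c.lam)
    rw [show (c.s b).toRingHom.comp e = e from RingHom.ext (he b)] at this
    rw [← c.S_lam, ← s_tmul]
    exact this.symm

theorem inv_R (x : E ⊗[F] L) (hx : ∀ b, c.s b x = x) : ∃ y, x = c.jB y := by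
  have h : ∃ h, x = eval₂ c.jB (1 ⊗ₜ c.lam) h := by
    clear hx
    induction x using TensorProduct.induction_on with
    | zero => exact ⟨0, by simp⟩
    | add x y hx hy =>
      obtain ⟨p, rfl⟩ := hx
      obtain ⟨r, rfl⟩ := hy
      exact ⟨p + r, by rw [eval₂_add]⟩
    | tmul a y =>
      obtain ⟨p, rfl⟩ := c.gen y
      refine ⟨C (HahnSeries.C a) * p.map (io F E), ?_⟩
      have := hom_eval₂ p c.g (Algebra.TensorProduct.includeRight : L →ₐ[F] E ⊗[F] L).toRingHom
        c.lam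
      rw [eval₂_mul, eval₂_C, jB_C, eval₂_map,
        show c.jB.comp (io F E) = (Algebra.TensorProduct.includeRight :
          L →ₐ[F] E ⊗[F] L).toRingHom.comp c.g from RingHom.ext c.jB_io]
      refine Eq.trans ?_ (congrArg _ this)
      simp
  obtain ⟨h, rfl⟩ := h
  exact c.inv_poly ((eval₂RingHom (HahnSeries.C : E →+* LaurentSeries E) (TT E)).comp
    (mapRingHom (algebraMap F E))) c.jB
    (fun f => c.jB_ev f) c.s_jB h hx

end Ctx

end Pool.Agent.Lib.KU
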