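import Pool.Agent.Lib.MP_091276_al.KU.Gen

set_option autoImplicit false

/-! The twist step as an equivalence. -/

namespace Pool.Agent.Lib.KU

open Polynomial Finset

variable {E B : Type*} [Field E] [Field B]

/-- `Lam = (T - a) + β τ`. -/
noncomputable def Lam (c : E →+* B) (T : B) (τ : B →+* B) (a : E) (β : E[X]) (u : B) : B :=
  (T - c a) * u + eval₂ c T β * τ u

/-- Membership in `E[T] + Lam B`. -/
def InS (c : E →+* B) (T : B) (τ : B →+* B) (a : E) (β : E[X]) (y : B) : Prop :=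
  ∃ (f : E[X]) (u : B), y = eval₂ c T f + Lam c T τ a β u

theorem Lam_add (c : E →+* B) (T : B) (τ : B →+* B) (a : E) (β : E[X]) (u v : B) :
    Lam c T τ a β (u + v) = Lam c T τ a β u + Lam c T τ a β v := by
  simp only [Lam, map_add]; ring

theorem Lam_sub (c : E →+* B) (T : B) (τ : B →+* B) (a : E) (β : E[X]) (u v : B) :
    Lam c T τ a β (u - v) = Lam c T τ a β u - Lam c T τ a β v := by
  simp only [Lam, map_sub]; ring

theorem Lam_smul {c : E →+* B} (T : B) {τ : B →+* B} (hc : ∀ a, τ (c a) = c a) (a : E)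
    (β : E[X]) (e : E) (u : B) : Lam c T τ a β (c e * u) = c e * Lam c T τ a β u := by
  simp only [Lam, map_mul, hc]; ring

theorem tau_eval {c : E →+* B} {T : B} {τ : B →+* B} {q : ℕ} (hc : ∀ a, τ (c a) = c a)
    (hT : τ T = T ^ q) (f : E[X]) : τ (eval₂ c T f) = eval₂ c T (expand E q f) := by
  induction f using Polynomial.induction_on' with
  | add f g hf hg => simp only [eval₂_add, map_add, hf, hg]
  | monomial n a =>
    rw [expand_monomial, eval₂_monomial, eval₂_monomial, map_mul, map_pow, hc, hT, ← pow_mul,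
      mul_comm q n]

theorem twist {c : E →+* B} {T : B} {τ : B →+* B} {q : ℕ} (hq : 1 ≤ q)
    (hc : ∀ a, τ (c a) = c a) (hT : τ T = T ^ q) (hne : ∀ a, c a ≠ T)
    (hfr : ∀ x y : B, (x - y) ^ q = x ^ q - y ^ q) (a : E) (β : E[X]) (hβ : β.eval a ≠ 0)
    (y : B) :
    InS c T τ (a ^ q) (β * (C a - X) ^ (q - 1)) y ↔ InS c T τ a β ((c a - T) * y) := by
  have hid : ∀ u, Lam c T τ a β ((c (a ^ q) - T) * u)
      = (c a - T) * Lam c T τ (a ^ q) (β * (C a - X) ^ (q - 1)) u := by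
    intro u
    have h1 : τ (c (a ^ q) - T) = (c a - T) * (c a - T) ^ (q - 1) := by
      rw [map_sub, hc, hT, ← pow_succ', Nat.sub_add_cancel hq, hfr, map_pow]
    simp only [Lam, map_mul, h1, eval₂_mul, eval₂_pow, eval₂_sub, eval₂_C, eval₂_X]
    ring
  have h0 : c a - T ≠ 0 := sub_ne_zero.2 (hne a)
  have h0' : c (a ^ q) - T ≠ 0 := sub_ne_zero.2 (hne _)
  constructor
  · rintro ⟨f, u, rfl⟩
    refine ⟨(C a - X) * f, (c (a ^ q) - T) * u, ?_⟩
    rw [hid]
    simp only [eval₂_mul, eval₂_sub, eval₂_C, eval₂_X]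
    ring
  · rintro ⟨f, v, h⟩
    set e : E := f.eval a / β.eval a with he
    have hroot : (f - C e * (X - C a + β)).IsRoot a := by
      simp only [IsRoot.def, eval_sub, eval_mul, eval_C, eval_add, eval_X, sub_self, zero_add, he]
      rw [div_mul_cancel₀ _ hβ, sub_self]
    obtain ⟨f1, hf1⟩ := dvd_iff_isRoot.2 hroot
    refine ⟨-f1, (v + c e * 1) / (c (a ^ q) - T), ?_⟩
    apply mul_left_cancel₀ h0
    rw [mul_add, ← hid, mul_div_cancel₀ _ h0', Lam_add, Lam_smul T hc, h]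
    have h2 := congrArg (eval₂ c T) hf1
    simp only [eval₂_mul, eval₂_sub, eval₂_C, eval₂_X, eval₂_add] at h2
    simp only [Lam, map_one, eval₂_neg]
    linear_combination h2

theorem twist_chain {c : E →+* B} {T : B} {τ : B →+* B} {q : ℕ} (hq : 1 ≤ q)
    (hc : ∀ a, τ (c a) = c a) (hT : τ T = T ^ q) (hne : ∀ a, c a ≠ T)
    (hfr : ∀ x y : B, (x - y) ^ q = x ^ q - y ^ q) {z : ℕ → E} (hz : ∀ i, z (i + 1) = z i ^ q)
    {d k : ℕ} (hinj : ∀ i < d, ∀ j < d, z i = z j → i = j) (n : ℕ → ℕ)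
    (hn : ∀ i, k ≤ i → i < d → n i = q - 1) (m : ℕ) (hm : k + m ≤ d) :
    ∃ w : B, w ≠ 0 ∧ ∀ y, InS c T τ (z (k + m)) (bet z n (k + m)) y ↔
      InS c T τ (z k) (bet z n k) (w * y) := by
  induction m with
  | zero => exact ⟨1, one_ne_zero, fun y => by simp⟩
  | succ m ih =>
    obtain ⟨w, hw, h⟩ := ih (by omega)
    refine ⟨w * (c (z (k + m)) - T), mul_ne_zero hw (sub_ne_zero.2 (hne _)), fun y => ?_⟩
    rw [← add_assoc, hz, bet_succ, hn _ (by omega) (by omega), twist hq hc hT hne hfr, h,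
      mul_assoc]
    rw [bet, eval_prod]
    refine prod_ne_zero_iff.2 fun i hi => ?_
    have hi' := mem_range.1 hi
    simp only [eval_pow, eval_sub, eval_C, eval_X]
    refine pow_ne_zero _ (sub_ne_zero.2 fun h => ?_)
    have := hinj i (by omega) (k + m) (by omega) h
    omega

end Pool.Agent.Lib.KU
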